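import Pool.Agent.H77.TC.Defs
import Pool.Agent.H4.Singer.RankInt

/-!
# Project TM, counting side: comparison of the Betti numbers
-/

set_option autoImplicit false
set_option linter.unusedSectionVars false

open Finset

namespace Pool.Agent.H77.TC

open Pool.Agent.H19.Cub Pool.Agent.H77.SX Pool.Agent.H37.TM

variable {V X : Type} [DecidableEq V] [Fintype V] [Fintype X] {K : Type} [Field K] [CharP K 2]

open Pool.Agent.H4.Singer (sg rank_int_le)

open Pool.Agent.H85.Fold Pool.Agent.H85.Fold2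

/-- the condition on the support -/
private def Cmp_ok (Q : CubeComplex V X) (d : ℕ) (σ : Finset V) (x : X) : Prop :=
  σ ⊆ Q.lab x ∧ Q.graph.IsClique (σ : Set V) ∧ σ.card = d

open Classical in
/-- the matrix of the relations -/
private noncomputable def Cmp_D (Q : CubeComplex V X) (d : ℕ) {P : Type} [Group P] (g : V → P)
    (ν : V → ℕ) : Matrix ((Finset V × (X × P)) ⊕ ((V × (Finset V × (X × P))) ⊕
      (Finset V × (X × P)))) (Finset V × (X × P)) ℤ
  | Sum.inl q, c => if Cmp_ok Q d q.1 q.2.1 then 0 else if q = c then 1 else 0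
  | Sum.inr (Sum.inl q), c => if q.1 ∈ q.2.1 then
      (if (q.2.1, prS Q.cs g q.1 q.2.2) = c then 1 else 0) + (if q.2 = c then 1 else 0) else 0
  | Sum.inr (Sum.inr q), c => ∑ v ∈ q.1ᶜ, sg ν v q.1 * (if (insert v q.1, q.2) = c then 1 else 0)

private theorem Cmp_one {I F : Type} [Fintype I] [DecidableEq I] [Field F] (q : I) (x : I → F) :
    ∑ c : I, ((if q = c then 1 else 0 : ℤ) : F) * x c = x q := by
  rw [Finset.sum_eq_single q]
  · rw [if_pos rfl, Int.cast_one, one_mul]
  · intro c _ hc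
    rw [if_neg (Ne.symm hc), Int.cast_zero, zero_mul]
  · intro h
    exact absurd (Finset.mem_univ _) h

/-- the kernel of the matrix -/
private theorem Cmp_mem (Q : CubeComplex V X) (d : ℕ) {P : Type} [Group P] [Fintype P] (g : V → P)
    (ν : V → ℕ) {F : Type} [Field F] (x : Finset V × (X × P) → F) :
    x ∈ LinearMap.ker ((Cmp_D Q d g ν).map (Int.cast : ℤ → F)).mulVecLin ↔
      (∀ q : Finset V × (X × P), ¬ Cmp_ok Q d q.1 q.2.1 → x q = 0) ∧
      (∀ (v : V) (q : Finset V × (X × P)), v ∈ q.1 → x (q.1, prS Q.cs g v q.2) + x q = 0) ∧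
      (∀ q : Finset V × (X × P), ∑ v ∈ q.1ᶜ, (sg ν v q.1 : F) * x (insert v q.1, q.2) = 0) := by
  classical
  rw [LinearMap.mem_ker, Matrix.mulVecLin_apply]
  have h1 : ∀ q, (((Cmp_D Q d g ν).map (Int.cast : ℤ → F)).mulVec x) (Sum.inl q) =
      if Cmp_ok Q d q.1 q.2.1 then 0 else x q := by
    intro q
    simp only [Matrix.mulVec, dotProduct, Matrix.map_apply, Cmp_D]
    split_ifs with h
    · simp
    · rw [← Cmp_one q x]
  have h2 : ∀ q, (((Cmp_D Q d g ν).map (Int.cast : ℤ → F)).mulVec x) (Sum.inr (Sum.inl q)) =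
      if q.1 ∈ q.2.1 then x (q.2.1, prS Q.cs g q.1 q.2.2) + x q.2 else 0 := by
    intro q
    simp only [Matrix.mulVec, dotProduct, Matrix.map_apply, Cmp_D]
    split_ifs with h
    · simp only [Int.cast_add, add_mul, Finset.sum_add_distrib]
      rw [← Cmp_one (q.2.1, prS Q.cs g q.1 q.2.2) x, ← Cmp_one q.2 x]
    · simp
  have h3 : ∀ q, (((Cmp_D Q d g ν).map (Int.cast : ℤ → F)).mulVec x) (Sum.inr (Sum.inr q)) =
      ∑ v ∈ q.1ᶜ, (sg ν v q.1 : F) * x (insert v q.1, q.2) := by
    intro q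
    simp only [Matrix.mulVec, dotProduct, Matrix.map_apply, Cmp_D, Int.cast_sum, Int.cast_mul,
      Finset.sum_mul]
    rw [Finset.sum_comm]
    refine Finset.sum_congr rfl fun v _ => ?_
    rw [← Cmp_one (insert v q.1, q.2) x, Finset.mul_sum]
    refine Finset.sum_congr rfl fun c _ => ?_
    rw [mul_assoc]
  constructor
  · intro h
    refine ⟨fun q hq => ?_, fun v q hv => ?_, fun q => ?_⟩
    · have h4 := congrFun h (Sum.inl q)
      rw [h1, if_neg hq] at h4
      exact h4
    · have h4 := congrFun h (Sum.inr (Sum.inl (v, q)))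
      rw [h2, if_pos hv] at h4
      exact h4
    · have h4 := congrFun h (Sum.inr (Sum.inr q))
      rw [h3] at h4
      exact h4
  · rintro ⟨h4, h5, h6⟩
    funext q
    rcases q with q | q | q
    · rw [h1]
      split_ifs with h
      · rfl
      · exact h4 q h
    · rw [h2]
      split_ifs with h
      · exact h5 q.1 q.2 h
      · rfl
    · rw [h3]
      exact h6 q

private theorem Cmp_ker (Q : CubeComplex V X) (d : ℕ) {P : Type} [Group P] [Fintype P] (g : V → P)
    (ν : V → ℕ) (F : Type) [Field F] :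
    Module.finrank F (LinearMap.ker ((Cmp_D Q d g ν).map (Int.cast : ℤ → F)).mulVecLin) +
      ((Cmp_D Q d g ν).map (Int.cast : ℤ → F)).rank = Fintype.card (Finset V × (X × P)) := by
  have h := LinearMap.finrank_range_add_finrank_ker
    ((Cmp_D Q d g ν).map (Int.cast : ℤ → F)).mulVecLin
  rw [Module.finrank_fintype_fun_eq_card] at h
  rw [add_comm]
  exact h

private theorem Cmp_up (Q : CubeComplex V X) (d : ℕ) {P : Type} [Group P] [Fintype P] (g : V → P)
    (hg : ∀ v, g v * g v = 1) (ν : V → ℕ) :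
    Module.finrank K (LinearMap.ker ((Cmp_D Q d g ν).map (Int.cast : ℤ → K)).mulVecLin) ≤
      dQ K Q d g := by
  let Φ : (Finset V × (X × P) → K) →ₗ[K] (Finset V → X → P → K) :=
    { toFun := fun x σ y p => x (σ, (y, p))
      map_add' := fun x y => rfl
      map_smul' := fun a x => rfl }
  have hΦ : ∀ x σ y p, Φ x σ y p = x (σ, (y, p)) := fun _ _ _ _ => rfl
  have hmem : ∀ x : LinearMap.ker ((Cmp_D Q d g ν).map (Int.cast : ℤ → K)).mulVecLin,
      (Φ.domRestrict _) x ∈ ZQ K Q d (rG K g) := by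
    rintro ⟨x, hx⟩
    rw [Cmp_mem] at hx
    obtain ⟨h1, h2, h3⟩ := hx
    show Φ x ∈ ZQ K Q d (rG K g)
    rw [mem_ZQ]
    refine ⟨fun σ y h => ?_, fun σ y hσ v hv => ?_, fun κ y => ?_⟩
    · by_contra hc
      apply h
      funext p
      exact h1 (σ, (y, p)) hc
    · funext p
      show Φ x σ (Q.nb v y) p = Φ x σ y (p * g v)
      rw [hΦ, hΦ]
      have h4 := h2 v (σ, (y, p * g v)) hv
      have h5 : prS Q.cs g v (y, p * g v) = (Q.nb v y, p) := by
        unfold prS
        rw [Q.cs_of_mem (hσ hv), mul_assoc, hg, mul_one]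
      dsimp only at h4
      rw [h5] at h4
      exact CharTwo.add_eq_zero.1 h4
    · funext p
      rw [Finset.sum_apply]
      refine Eq.trans ?_ (h3 (κ, (y, p)))
      refine Finset.sum_congr rfl fun v _ => ?_
      have h5 : (sg ν v κ : K) = 1 := by
        unfold sg
        rw [Int.cast_pow, Int.cast_neg, Int.cast_one, CharTwo.neg_eq, one_pow]
      show x (insert v κ, (y, p)) = _
      dsimp only
      rw [h5, one_mul]
  unfold dQ
  refine LinearMap.finrank_le_finrank_of_injective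
    (f := LinearMap.codRestrict (ZQ K Q d (rG K g)) (Φ.domRestrict _) hmem) ?_
  intro x y hxy
  have h1 : Φ x.1 = Φ y.1 := congrArg Subtype.val hxy
  apply Subtype.ext
  funext q
  have h2 := congrFun (congrFun (congrFun h1 q.1) q.2.1) q.2.2
  exact h2

private theorem Cmp_low (Q : CubeComplex V X) (d : ℕ) {P : Type} [Group P] [Fintype P] (g : V → P)
    (ν : V → ℕ) :
    Module.finrank ℂ (SZ ℂ Q.graph (prY Q.lab P) (fun _ => (1 : Matrix Unit Unit ℂ))
      (prS Q.cs g) ν d) ≤
    Module.finrank ℂ (LinearMap.ker ((Cmp_D Q d g ν).map (Int.cast : ℤ → ℂ)).mulVecLin) := by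
  let Ψ : (Finset V → X × P → Unit → ℂ) →ₗ[ℂ] (Finset V × (X × P) → ℂ) :=
    { toFun := fun f c => f c.1 c.2 ()
      map_add' := fun f f' => rfl
      map_smul' := fun a f => rfl }
  have hmem : ∀ f : SZ ℂ Q.graph (prY Q.lab P) (fun _ => (1 : Matrix Unit Unit ℂ))
      (prS Q.cs g) ν d, (Ψ.domRestrict _) f ∈
        LinearMap.ker ((Cmp_D Q d g ν).map (Int.cast : ℤ → ℂ)).mulVecLin := by
    rintro ⟨f, ⟨⟨h1, h2⟩, h3⟩⟩
    show Ψ f ∈ _
    rw [Cmp_mem]
    refine ⟨fun q hq => ?_, fun v q hv => ?_, fun q => ?_⟩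
    · show f q.1 q.2 () = 0
      by_contra hc
      apply hq
      obtain ⟨h4, h5, h6⟩ := h1 q.1 q.2 (fun h => hc (by rw [h]; rfl))
      refine ⟨h4, ?_, h6⟩
      intro u hu v hv huv
      exact h5 u hu v hv huv
    · show f q.1 (prS Q.cs g v q.2) () + f q.1 q.2 () = 0
      have h4 := h2 q.1 v hv q.2
      rw [Matrix.one_mulVec] at h4
      rw [h4]
      simp
    · have h4 : tdl ℂ ν f = 0 := h3
      have h5 := congrFun (congrFun (congrFun h4 q.1) q.2) ()
      have h6 : (tdl ℂ ν f) q.1 q.2 () =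
          ∑ v ∈ q.1ᶜ, (sg ν v q.1 : ℂ) * f (insert v q.1) q.2 () := by
        show (∑ v ∈ q.1ᶜ, (sg ν v q.1 : ℂ) • f (insert v q.1) q.2) () = _
        rw [Finset.sum_apply]
        rfl
      rw [h6] at h5
      exact h5
  refine LinearMap.finrank_le_finrank_of_injective
    (f := LinearMap.codRestrict (LinearMap.ker
      ((Cmp_D Q d g ν).map (Int.cast : ℤ → ℂ)).mulVecLin) (Ψ.domRestrict _) hmem) ?_
  intro f f' hff
  have h1 : Ψ f.1 = Ψ f'.1 := congrArg Subtype.val hff
  apply Subtype.ext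
  funext σ x u
  exact congrFun h1 (σ, x)

/-- **Comparison.** `bT ≤ finrank (SZ ℂ …)`. The integer matrix `D` with the columns
`(σ, (x, p))` and the rows: (i) for `(σ, (x, p))` without `σ ⊆ lab x ∧ clique ∧ card = d` the unit vector;
(ii) for `(v, σ, (x, p))`, `v ∈ σ`, the relation `f σ (prS v (x, p)) + f σ (x, p)`; (iii) for `(κ, (x, p))` the
relation `∑ v ∈ κᶜ, sg ν v κ * f (insert v κ) (x, p)`. Its kernel over `ℂ` is `SZ`, its kernel
over `K` is (via `f σ x p`) `ZQ K Q d (rG K g)`, as `-1 = 1` in `K` (for (ii) with `σ ⊄ lab x` use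
`IsSpec.sub_iff`). `rank_int_le` gives rank over `K` ≤ rank over `ℂ`. -/
theorem bT_le (Q : CubeComplex V X) (d : ℕ) {P : Type} [Group P] [Fintype P] (g : V → P)
    (hg : ∀ v, g v * g v = 1) (hgc : ∀ u v, Q.graph.Adj u v → g u * g v = g v * g u) (ν : V → ℕ) :
    bT ℂ Q.graph (prY Q.lab P) (prS Q.cs g) ν d ≤ dQ K Q d g := by
  unfold bT bS
  refine (Nat.sub_le _ _).trans ?_
  refine (Cmp_low Q d g ν).trans (le_trans ?_ (Cmp_up (K := K) Q d g hg ν))
  have h2 := Cmp_ker Q d g ν ℂ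
  have h3 := Cmp_ker Q d g ν K
  have h4 := rank_int_le (Cmp_D Q d g ν) K
  omega

end Pool.Agent.H77.TC
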