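import Pool.Agent.H77.TC.Defs

/-!
# Project TM, counting side: the tower of finite quotients
-/

set_option autoImplicit false
set_option linter.unusedSectionVars false

open Finset Filter

namespace Pool.Agent.H77.TC

open Pool.Agent.H19.Cub Pool.Agent.H77.SX Pool.Agent.H37.TM Pool.Agent.H4.Singer

variable {V X : Type} [DecidableEq V] [Fintype V] [Fintype X]

/-- the marked elements of the group of functions on the subsets -/
private def Tower_g {R : Type} [Group R] (r : V → R) (v : V) : Finset V → R :=
  fun A => if v ∈ A then r v else 1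

private theorem Tower_hom (G : SimpleGraph V) {R : Type} [Group R] (r : V → R)
    (hr : ∀ v, r v * r v = 1) (hc : ∀ u v, G.Adj u v → r u * r v = r v * r u) :
    ∃ π : RGrp G →* (Finset V → R), ∀ v, π (gen G v) = Tower_g r v := by
  refine exists_lift G (Tower_g r) (fun v => ?_) (fun u v h => ?_)
  · funext A
    show (if v ∈ A then r v else 1) * (if v ∈ A then r v else 1) = 1
    split_ifs
    · exact hr v
    · exact one_mul 1
  · funext A
    show (if u ∈ A then r u else 1) * (if v ∈ A then r v else 1) =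
      (if v ∈ A then r v else 1) * (if u ∈ A then r u else 1)
    split_ifs
    · exact hc u v h
    · rw [mul_one, one_mul]
    · rw [mul_one, one_mul]
    · rfl

private theorem Tower_ext (G : SimpleGraph V) {R : Type} [Group R] (f g : RGrp G →* R)
    (h : ∀ v, f (gen G v) = g (gen G v)) : f = g :=
  (racg G).toCoxeterSystem.ext_simple h

private theorem Tower_eval (G : SimpleGraph V) {R : Type} [Group R] (r : V → R)
    (π : RGrp G →* (Finset V → R)) (hπ : ∀ v, π (gen G v) = Tower_g r v) (w : RGrp G) :
    π w ∅ = 1 := by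
  have h1 : (Pi.evalMonoidHom (fun _ : Finset V => R) ∅).comp π = 1 := by
    refine Tower_ext G _ _ fun v => ?_
    show π (gen G v) ∅ = 1
    rw [hπ]
    exact if_neg (Finset.notMem_empty v)
  exact DFunLike.congr_fun h1 w

/-- the elements of the closure of `S` do not change if `A` is replaced by `A ∩ S` -/
private theorem Tower_cl (G : SimpleGraph V) {R : Type} [Group R] (r : V → R)
    (π : RGrp G →* (Finset V → R)) (hπ : ∀ v, π (gen G v) = Tower_g r v) (S : Set V)
    (x : π.range) (hx : x ∈ Subgroup.closure ((fun v => π.rangeRestrict (gen G v)) '' S))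
    (A B : Finset V) (hAB : ∀ v ∈ S, (v ∈ A ↔ v ∈ B)) : x.1 A = x.1 B := by
  induction hx using Subgroup.closure_induction with
  | mem x hx =>
    obtain ⟨v, hv, rfl⟩ := hx
    show π (gen G v) A = π (gen G v) B
    rw [hπ]
    show (if v ∈ A then r v else 1) = if v ∈ B then r v else 1
    by_cases h : v ∈ A
    · rw [if_pos h, if_pos ((hAB v hv).1 h)]
    · rw [if_neg h, if_neg fun h' => h ((hAB v hv).2 h')]
  | one => rfl
  | mul x y _ _ hx hy =>
    show x.1 A * y.1 A = x.1 B * y.1 B
    rw [hx, hy]
  | inv x _ hx =>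
    show (x.1 A)⁻¹ = (x.1 B)⁻¹
    rw [hx]

private theorem Tower_link (G : SimpleGraph V) {R : Type} [Group R] (r : V → R)
    (π : RGrp G →* (Finset V → R)) (hπ : ∀ v, π (gen G v) = Tower_g r v) :
    LinkGood G (fun v => π.rangeRestrict (gen G v)) := by
  classical
  intro σ hσ x hx
  have h1 : ∀ τ : Finset V, τ ⊆ σ → ∀ A : Finset V,
      x.1 A = x.1 (A.filter fun u => ∀ v ∈ τ, G.Adj v u) := by
    intro τ
    induction τ using Finset.induction_on with
    | empty =>
      intro _ A
      refine congrArg x.1 ?_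
      ext u
      simp
    | insert v τ _ ih =>
      intro hτ A
      rw [ih (fun u hu => hτ (Finset.mem_insert_of_mem hu)) A]
      refine Tower_cl G r π hπ _ x (hx v (hτ (Finset.mem_insert_self v τ))) _ _ ?_
      intro u hu
      simp only [Finset.mem_filter, Finset.mem_insert, forall_eq_or_imp]
      constructor
      · rintro ⟨h1, h2⟩
        exact ⟨h1, hu, h2⟩
      · rintro ⟨h1, _, h2⟩
        exact ⟨h1, h2⟩
  obtain ⟨w, hw⟩ := x.2
  apply Subtype.ext
  funext A
  rw [h1 σ (Finset.Subset.refl σ) A]
  have h2 : (A.filter fun u => ∀ v ∈ σ, G.Adj v u) = ∅ := by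
    rw [Finset.filter_eq_empty_iff]
    intro u _ h
    obtain ⟨v, hv, hn⟩ := hσ u
    exact hn (h v hv)
  rw [h2, ← hw]
  exact Tower_eval G r π hπ w

/-- **The tower.** For a group `R` and marked elements `r v` (`r v * r v = 1`, commuting for adjacent
labels) let `F = (Finset V → R)` with the marked elements `A ↦ if v ∈ A then r v else 1`
(`exists_lift`). `LinkGood` holds in every subgroup of `F` (with these marked elements): an element of
the closure of the link of `v` has the same value at `A` and at `A ∩ link v`; so for `x` in all the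
closures of the links of `v ∈ σ` and `σ` without common neighbours `x A = x ∅ = 1`.
`Ps = Finset V → Equiv.Perm X`, `r v = pm Q v`, `ρs = evaluation at univ`. For `j` let `Q j` be the two-group of
`exists_two_group Q.graph j`; `P j` is the range of the homomorphism to
`Finset V → Equiv.Perm X × Q j`, `κ` the projection (the kernel consists of functions with
values in `1 × Q j`, a two-group). Separation: the value at `univ`. -/
theorem exists_tower (Q : CubeComplex V X) :
    ∃ (Ps : Type) (_ : Group Ps) (πs : RGrp Q.graph →* Ps) (ρs : Ps →* Equiv.Perm X)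
      (P : ℕ → Type) (_ : ∀ j, Group (P j)) (_ : ∀ j, Fintype (P j))
      (D : ∀ j, FQ (racg Q.graph) πs (P j)),
      (∀ v, ρs (πs (gen Q.graph v)) = pm Q v) ∧
      (∀ w : RGrp Q.graph, w ≠ 1 → ∀ᶠ j in atTop, (D j).π w ≠ 1) ∧
      ∀ j, LinkGood Q.graph (D j).g := by
  classical
  have hr : ∀ v, pm Q v * pm Q v = 1 := fun v => Equiv.ext fun x => Q.isSpec.inv v x
  have hc : ∀ u v, Q.graph.Adj u v → pm Q u * pm Q v = pm Q v * pm Q u := fun u v h =>
    Equiv.ext fun x => Q.isSpec.comm u v h x
  obtain ⟨πs, hπs⟩ := Tower_hom Q.graph (pm Q) hr hc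
  choose P₁ grp₁ fin₁ π₁ hP₁ hsep using fun L => exists_two_group Q.graph L
  have h3 : ∀ j, ∃ π : RGrp Q.graph →* (Finset V → Equiv.Perm X × P₁ j), ∀ v,
      π (gen Q.graph v) = Tower_g (fun v => (pm Q v, π₁ j (gen Q.graph v))) v := by
    intro j
    refine Tower_hom Q.graph _ (fun v => ?_) (fun u v h => ?_)
    · show (pm Q v * pm Q v, π₁ j (gen Q.graph v) * π₁ j (gen Q.graph v)) = 1
      rw [hr, ← map_mul, gen_mul_gen, map_one]
      rfl
    · show (pm Q u * pm Q v, π₁ j (gen Q.graph u) * π₁ j (gen Q.graph v)) =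
        (pm Q v * pm Q u, π₁ j (gen Q.graph v) * π₁ j (gen Q.graph u))
      rw [hc u v h, ← map_mul, ← map_mul, gen_comm Q.graph u v h]
  choose π hπ using h3
  let κ : ∀ j, (π j).range →* (Finset V → Equiv.Perm X) := fun j =>
    (MonoidHom.pi fun A => (MonoidHom.fst (Equiv.Perm X) (P₁ j)).comp
      (Pi.evalMonoidHom (fun _ : Finset V => Equiv.Perm X × P₁ j) A)).comp (π j).range.subtype
  have hκ : ∀ j w, κ j ((π j).rangeRestrict w) = πs w := by
    intro j w
    refine DFunLike.congr_fun (Tower_ext Q.graph ((κ j).comp (π j).rangeRestrict) πs fun v => ?_) w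
    rw [hπs]
    funext A
    show (π j (gen Q.graph v) A).1 = Tower_g (pm Q) v A
    rw [hπ]
    show (if v ∈ A then (pm Q v, π₁ j (gen Q.graph v)) else 1).1 = if v ∈ A then pm Q v else 1
    split_ifs <;> rfl
  have h2 : ∀ j, IsPGroup 2 (κ j).ker := by
    rintro j ⟨x, hx⟩
    have hx1 : ∀ A, (x.1 A).1 = 1 := fun A => congrFun (MonoidHom.mem_ker.1 hx) A
    have hk : ∀ A : Finset V, ∃ k : ℕ, (x.1 A).2 ^ 2 ^ k = 1 := fun A => hP₁ j _
    choose k hk using hk
    refine ⟨∑ A, k A, ?_⟩
    apply Subtype.ext
    apply Subtype.ext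
    funext A
    show (x.1 A) ^ 2 ^ (∑ A, k A) = 1
    apply Prod.ext
    · show (x.1 A).1 ^ 2 ^ (∑ A, k A) = 1
      rw [hx1, one_pow]
    · show (x.1 A).2 ^ 2 ^ (∑ A, k A) = 1
      rw [← Finset.add_sum_erase univ k (Finset.mem_univ A), pow_add, pow_mul, hk, one_pow]
  refine ⟨Finset V → Equiv.Perm X, inferInstance, πs, Pi.evalMonoidHom _ univ,
    fun j => (π j).range, fun j => inferInstance, fun j => Fintype.ofFinite _,
    fun j => ⟨(π j).rangeRestrict, (π j).rangeRestrict_surjective, κ j, hκ j, h2 j⟩,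
    ?_, ?_, ?_⟩
  · intro v
    rw [hπs]
    exact if_pos (Finset.mem_univ v)
  · intro w hw
    filter_upwards [eventually_ge_atTop ((racg Q.graph).toCoxeterSystem.length w)] with j hj h
    refine hsep j w hw hj ?_
    have e1 : (MonoidHom.snd (Equiv.Perm X) (P₁ j)).comp ((Pi.evalMonoidHom
        (fun _ : Finset V => Equiv.Perm X × P₁ j) univ).comp (π j)) = π₁ j := by
      refine Tower_ext Q.graph _ _ fun v => ?_
      show (π j (gen Q.graph v) univ).2 = π₁ j (gen Q.graph v)
      rw [hπ]
      show (if v ∈ (univ : Finset V) then (pm Q v, π₁ j (gen Q.graph v)) else 1).2 = _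
      rw [if_pos (Finset.mem_univ v)]
    rw [← e1]
    have e2 : π j w = 1 := congrArg Subtype.val h
    show (π j w univ).2 = 1
    rw [e2]
    rfl
  · intro j
    exact Tower_link Q.graph _ (π j) (hπ j)

end Pool.Agent.H77.TC
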