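import Pool.Agent.H77.TC.Count
import Pool.Agent.H77.TC.Tower
import Pool.Agent.H77.TC.Cmp
import Pool.Agent.H77.SW.Seq
import Pool.Agent.H19.Cub.Transf

/-!
# Project TM, counting side: the final theorem
-/

set_option autoImplicit false
set_option linter.unusedSectionVars false

open Finset Filter Topology

namespace Pool.Agent.H77.TC

open Pool.Agent.H19.Cub Pool.Agent.H77.SX Pool.Agent.H37.TM Pool.Agent.H77.SW
  Pool.Agent.H4.Singer

variable {V X : Type} [DecidableEq V] [Fintype V] [Fintype X]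

/-- **The counting side.** The pattern is `Pool.Agent.H77.SX.fc_all` (range of the product of the tower and the
`small` quotient, `mono`, `bT_le`) with `harm_ext`, `hodgeS`, `harm_infS`, `harm_finS`,
`l2ker_trivial` of `Pool.Agent.H19.Cub` (see `CubeComplex.general`, `harm_W`). -/
theorem count (Q : CubeComplex V X) (x₀ : X) (bit : X → V → ZMod 2) (hbit : IsBit Q bit) (d : ℕ)
    (hN : NoNb Q d) (h : ∀ (K : Type) [Field K] [CharP K 2], StarRel K Q bit d) :
    Pool.Agent.H19.Cub.L2HomologyZero (Q.cover x₀) d := by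
  classical
  intro ν hν z hz hdz ε hε
  have hW : ∀ f : Finset V → X × RGrp Q.graph → ℂ,
      IsHarmS Q.graph (prY Q.lab (RGrp Q.graph)) (prS Q.cs (gen Q.graph)) ν d f → f = 0 := by
    obtain ⟨K, _, _, ⟨Xg⟩⟩ := exists_genSeq
    obtain ⟨Ps, _, πs, ρs, P₁, grp₁, fin₁, D, hρs, hsep, hgood⟩ := exists_tower Q
    have h2 := fun j : ℕ => small Xg Q bit hbit d (h K) hN πs ρs hρs
      ⟨P₁ 0, grp₁ 0, fin₁ 0, D 0, hgood 0⟩ (1 / (j + 1 : ℝ)) (by positivity)
    choose P₂ grp₂ fin₂ E hE using h2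
    let Pr : ∀ j, RGrp Q.graph →* P₁ j × P₂ j := fun j => (D j).π.prod (E j).π
    let P : ℕ → Type := fun j => (Pr j).range
    let fin : ∀ j, Fintype (P j) := fun j => Fintype.ofFinite _
    let π : ∀ j, RGrp Q.graph →* P j := fun j => (Pr j).rangeRestrict
    have hsep' : ∀ w : RGrp Q.graph, w ≠ 1 → ∀ᶠ j in atTop, π j w ≠ 1 := by
      intro w hw
      filter_upwards [hsep w hw] with j hj h
      exact hj (congrArg (fun x : P j => x.1.1) h)
    let q : ∀ j, P j →* P₂ j := fun j => (MonoidHom.snd (P₁ j) (P₂ j)).comp (Pr j).range.subtype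
    have hq : ∀ j w, q j (π j w) = (E j).π w := fun j w => rfl
    have hqs : ∀ j, Function.Surjective (q j) := by
      intro j y
      obtain ⟨w, hw⟩ := (E j).surj y
      exact ⟨π j w, (hq j w).trans hw⟩
    have hq2 : ∀ j, IsPGroup 2 (q j).ker := by
      rintro j ⟨x, hx⟩
      have hx2 : x.1.2 = 1 := hx
      have hx1 : x.1.1 ∈ (D j).κ.ker := by
        obtain ⟨w, hw⟩ := x.2
        have h3 : (D j).π w = x.1.1 := congrArg Prod.fst hw
        have h4 : (E j).π w = x.1.2 := congrArg Prod.snd hw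
        rw [MonoidHom.mem_ker, ← h3, (D j).κπ, ← (E j).κπ, h4, hx2, map_one]
      obtain ⟨n, hn⟩ := (D j).two ⟨x.1.1, hx1⟩
      refine ⟨n, ?_⟩
      apply Subtype.ext
      apply Subtype.ext
      apply Prod.ext
      · exact congrArg Subtype.val hn
      · show x.1.2 ^ 2 ^ n = 1
        rw [hx2, one_pow]
    refine harm_infS Q.graph Q.lab Q.cs Q.isSpec ν d
      (l2ker_trivial π hsep' (HSA Q.graph Q.lab Q.cs ν d) ?_)
    intro η hη
    have hbd : ∀ j, (bT ℂ Q.graph (prY Q.lab (P j)) (prS Q.cs fun v => π j (gen Q.graph v))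
        ν d : ℝ) ≤ 1 / (j + 1 : ℝ) * Fintype.card (P j) := by
      intro j
      have hsq : ∀ v, (E j).g v * (E j).g v = 1 := by
        intro v
        show (E j).π (gen Q.graph v) * (E j).π (gen Q.graph v) = 1
        rw [← map_mul, gen_mul_gen, map_one]
      have hsq' : ∀ v, π j (gen Q.graph v) * π j (gen Q.graph v) = 1 := by
        intro v
        rw [← map_mul, gen_mul_gen, map_one]
      have hcm' : ∀ u v, Q.graph.Adj u v →
          π j (gen Q.graph u) * π j (gen Q.graph v) = π j (gen Q.graph v) * π j (gen Q.graph u) := by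
        intro u v huv
        rw [← map_mul, ← map_mul, gen_comm Q.graph u v huv]
      have h3 := bT_le (K := K) Q d (fun v => π j (gen Q.graph v)) hsq' hcm' ν
      have h4 := mono (K := K) Q d (fun v => π j (gen Q.graph v)) (E j).g (q j)
        (fun v => hq j (gen Q.graph v)) hsq (hqs j) (hq2 j)
      have h6 := hE j
      have hc2 : (0 : ℝ) < Fintype.card (P₂ j) := by exact_mod_cast Fintype.card_pos
      have h7 : (Fintype.card (P₂ j) * bT ℂ Q.graph (prY Q.lab (P j))
          (prS Q.cs fun v => π j (gen Q.graph v)) ν d : ℝ) ≤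
          Fintype.card (P j) * dQ K Q d (E j).g := by
        exact_mod_cast (Nat.mul_le_mul_left _ h3).trans h4
      have h8 : (Fintype.card (P j) * dQ K Q d (E j).g : ℝ) ≤
          Fintype.card (P j) * (1 / (j + 1 : ℝ) * Fintype.card (P₂ j)) :=
        mul_le_mul_of_nonneg_left h6 (Nat.cast_nonneg _)
      have h9 : (Fintype.card (P₂ j) : ℝ) * bT ℂ Q.graph (prY Q.lab (P j))
          (prS Q.cs fun v => π j (gen Q.graph v)) ν d ≤
          Fintype.card (P₂ j) * (1 / (j + 1 : ℝ) * Fintype.card (P j)) := by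
        refine (h7.trans h8).trans (le_of_eq ?_)
        ring
      exact le_of_mul_le_mul_left h9 hc2
    have hlim : Tendsto (fun j : ℕ => 1 / ((j : ℝ) + 1)) atTop (𝓝 0) :=
      tendsto_one_div_add_atTop_nhds_zero_nat
    filter_upwards [hlim.eventually (eventually_le_nhds hη)] with j hj
    refine (harm_finS Q.graph Q.lab Q.cs Q.isSpec ν hν d (P j) (π j)).trans ((hbd j).trans ?_)
    exact mul_le_mul_of_nonneg_right hj (Nat.cast_nonneg _)
  have h1 : ∀ f : Finset V → Q.Cover x₀ → ℂ,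
      IsHarmS Q.graph (Q.cover x₀).lab (Q.cover x₀).cs ν d f → f = 0 :=
    fun f hf => Q.harm_ext x₀ ν d hW f hf
  obtain ⟨y, hy, hye⟩ := hodgeS Q.graph (Q.cover x₀).lab (Q.cover x₀).cs (Q.cover x₀).isSpec ν hν d
    h1 z (((Q.cover x₀).isL2_iff d z).1 hz) hdz ε hε
  exact ⟨y, ((Q.cover x₀).isL2_iff (d + 1) y).2 hy, hye⟩

end Pool.Agent.H77.TC
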