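import Pool.Agent.H77.TC.Defs

/-!
# Project TM, counting side: the filtration of the extension module
-/

set_option autoImplicit false
set_option linter.unusedSectionVars false

open Finset

namespace Pool.Agent.H77.TC

open Pool.Agent.H19.Cub Pool.Agent.H77.SX Pool.Agent.H37.TM

variable {V X : Type} [DecidableEq V] [Fintype V] [Fintype X] {K : Type} [Field K]

/-- dimension count for a linear map -/
private theorem Filt_rank {M M' : Type} [AddCommGroup M] [Module K M] [FiniteDimensional K M]
    [AddCommGroup M'] [Module K M'] [FiniteDimensional K M'] (f : M →ₗ[K] M') (S S' : Submodule K M)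
    (T : Submodule K M') (h1 : ∀ z ∈ S, f z ∈ T) (h2 : ∀ z ∈ S, f z = 0 → z ∈ S') :
    Module.finrank K S ≤ Module.finrank K T + Module.finrank K S' := by
  let g : S →ₗ[K] T := (f.domRestrict S).codRestrict T fun z => h1 z.1 z.2
  have e := LinearMap.finrank_range_add_finrank_ker g
  have hr : Module.finrank K (LinearMap.range g) ≤ Module.finrank K T := Submodule.finrank_le _
  have hk : ∀ z : S, z ∈ LinearMap.ker g → z.1 ∈ S' := by
    intro z hz
    refine h2 z.1 z.2 ?_
    have h3 : g z = 0 := hz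
    exact congrArg Subtype.val h3
  let j : LinearMap.ker g →ₗ[K] S' := ((Submodule.subtype S).comp (Submodule.subtype (LinearMap.ker g))).codRestrict S' fun z => hk z.1 z.2
  have hj : Function.Injective j := by
    intro a b hab
    apply Subtype.ext
    apply Subtype.ext
    have h5 : ((j a : S') : M) = ((j b : S') : M) := by rw [hab]
    exact h5
  have h4 := LinearMap.finrank_le_finrank_of_injective hj
  omega

/-- the elements of the extension module which vanish at the sets outside `𝓤` -/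
private def Filt_Z (Q : CubeComplex V X) (n : ℕ) {P : Type} [Group P] (g : V → P)
    (s : Finset V) (t : V → P → K) (𝓤 : Finset (Finset V)) :
    Submodule K (Finset V → X → (Finset V × P → K)) where
  carrier := {z | z ∈ ZQ K Q n (rX g s t) ∧ ∀ τ x A p, A ∉ 𝓤 → z τ x (A, p) = 0}
  zero_mem' := ⟨Submodule.zero_mem _, fun _ _ _ _ _ => rfl⟩
  add_mem' := by
    rintro z w ⟨h1, h2⟩ ⟨h3, h4⟩
    refine ⟨Submodule.add_mem _ h1 h3, fun τ x A p hA => ?_⟩
    rw [Pi.add_apply, Pi.add_apply, Pi.add_apply, h2 τ x A p hA, h4 τ x A p hA, add_zero]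
  smul_mem' := by
    rintro c z ⟨h1, h2⟩
    refine ⟨Submodule.smul_mem _ c h1, fun τ x A p hA => ?_⟩
    rw [Pi.smul_apply, Pi.smul_apply, Pi.smul_apply, h2 τ x A p hA, smul_zero]

/-- the component at `A` -/
private def Filt_ev (K : Type) [Field K] (X P : Type) (A : Finset V) :
    (Finset V → X → (Finset V × P → K)) →ₗ[K] (Finset V → X → P → K) where
  toFun z := fun τ x p => z τ x (A, p)
  map_add' _ _ := rfl
  map_smul' _ _ := rfl

private theorem Filt_mem {Q : CubeComplex V X} {n : ℕ} {P : Type} [Group P] {g : V → P}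
    {s : Finset V} {t : V → P → K} {A : Finset V} {z : Finset V → X → (Finset V × P → K)}
    (hz : z ∈ ZQ K Q n (rX g s t)) (h0 : ∀ τ x, ∀ v ∈ A, ∀ p, z τ x (A.erase v, p) = 0) :
    Filt_ev K X P A z ∈ ZQ K Q n (rG K g) := by
  obtain ⟨h1, h2, h3⟩ := mem_ZQ.1 hz
  rw [mem_ZQ]
  refine ⟨fun σ x hσ => h1 σ x fun h => hσ ?_, fun σ x hs v hv => ?_, fun κ x => ?_⟩
  · funext p
    exact congrFun h (A, p)
  · funext p
    have h4 := congrFun (h2 σ x hs v hv) (A, p)
    have h5 : z σ (Q.nb v x) (A, p) = z σ x (A, p * g v) +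
        (if v ∈ s ∧ v ∈ A then t v p * z σ x (A.erase v, p * g v) else 0) := h4
    have h6 : (if v ∈ s ∧ v ∈ A then t v p * z σ x (A.erase v, p * g v) else 0) = 0 := by
      split_ifs with h
      · rw [h0 σ x v h.2, mul_zero]
      · rfl
    rw [h6, add_zero] at h5
    exact h5
  · funext p
    have h4 := congrFun (h3 κ x) (A, p)
    rw [Finset.sum_apply] at h4 ⊢
    exact h4

private theorem Filt_up (Q : CubeComplex V X) (n : ℕ) {P : Type} [Group P] [Fintype P] (g : V → P)
    (s : Finset V) (t : V → P → K) (m : ℕ) : ∀ 𝓤 : Finset (Finset V), 𝓤.card = m →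
      (∀ A ∈ 𝓤, ∀ B, A ⊆ B → B ∈ 𝓤) →
      Module.finrank K (Filt_Z Q n g s t 𝓤) ≤ 𝓤.card * dQ K Q n g := by
  induction m with
  | zero =>
    intro 𝓤 hc _
    have hz : ∀ z ∈ Filt_Z Q n g s t 𝓤, z = 0 := by
      rintro z ⟨-, h2⟩
      funext τ x q
      refine h2 τ x q.1 q.2 ?_
      rw [Finset.card_eq_zero.1 hc]
      exact notMem_empty _
    have h1 : Filt_Z Q n g s t 𝓤 = ⊥ := (Submodule.eq_bot_iff _).2 hz
    rw [h1, finrank_bot]
    exact Nat.zero_le _
  | succ m ih =>
    intro 𝓤 hc hup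
    have hne : 𝓤.Nonempty := by
      rw [← Finset.card_pos, hc]
      exact Nat.succ_pos m
    obtain ⟨A, hA, hmin⟩ := Finset.exists_min_image 𝓤 Finset.card hne
    have hmin' : ∀ B ∈ 𝓤, B ⊆ A → B = A := fun B hB hBA => Finset.eq_of_subset_of_card_le hBA (hmin B hB)
    have hce : (𝓤.erase A).card = m := by rw [card_erase_of_mem hA, hc, Nat.add_sub_cancel]
    have h1 := ih (𝓤.erase A) hce (by
      intro B hB C hBC
      rw [mem_erase] at hB ⊢
      refine ⟨?_, hup B hB.2 C hBC⟩
      rintro rfl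
      exact hB.1 (hmin' B hB.2 hBC))
    have h2 := Filt_rank (Filt_ev K X P A) (Filt_Z Q n g s t 𝓤) (Filt_Z Q n g s t (𝓤.erase A)) (ZQ K Q n (rG K g))
      (by
        rintro z ⟨hz1, hz2⟩
        refine Filt_mem hz1 fun τ x v hv p => hz2 τ x _ p fun h => ?_
        have h3 := hmin' _ h (erase_subset v A)
        rw [Finset.erase_eq_self] at h3
        exact h3 hv)
      (by
        rintro z ⟨hz1, hz2⟩ h0
        refine ⟨hz1, fun τ x B p hB => ?_⟩
        by_cases hBA : B = A
        · rw [hBA]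
          exact congrFun (congrFun (congrFun h0 τ) x) p
        · exact hz2 τ x B p fun h => hB (mem_erase.2 ⟨hBA, h⟩))
    rw [hce] at h1
    have h3 : Module.finrank K (ZQ K Q n (rG K g)) = dQ K Q n g := rfl
    rw [h3] at h2
    rw [hc]
    calc _ ≤ dQ K Q n g + m * dQ K Q n g := by omega
      _ = (m + 1) * dQ K Q n g := by ring

/-- **The upper bound for the extension module.** As `Pool.Agent.H77.SX.upper_rX`. -/
theorem upper_rX (Q : CubeComplex V X) (n : ℕ) {P : Type} [Group P] [Fintype P] (g : V → P)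
    (s : Finset V) (t : V → P → K) (σ : Finset V)
    (hkey : ∀ z ∈ ZQ K Q n (rX g s t), ∀ x p, z σ x (∅, p) = 0) :
    Module.finrank K (ZQ K Q n (rX g s t)) ≤
      Module.finrank K (ZQs K Q n g σ) + (2 ^ Fintype.card V - 1) * dQ K Q n g := by
  have h1 := Filt_rank (Filt_ev K X P ∅) (ZQ K Q n (rX g s t)) (Filt_Z Q n g s t (univ.erase ∅)) (ZQs K Q n g σ)
    (by
      intro z hz
      refine Submodule.mem_inf.2 ⟨Filt_mem hz fun τ x v hv => absurd hv (notMem_empty v), ?_⟩
      rw [LinearMap.mem_ker]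
      funext x p
      exact hkey z hz x p)
    (by
      intro z hz h0
      refine ⟨hz, fun τ x B p hB => ?_⟩
      have hB0 : B = ∅ := by
        by_contra h
        exact hB (mem_erase.2 ⟨h, mem_univ B⟩)
      rw [hB0]
      exact congrFun (congrFun (congrFun h0 τ) x) p)
  have h2 := Filt_up Q n g s t _ (univ.erase ∅) rfl (by
    intro A hA B hAB
    rw [mem_erase] at hA ⊢
    refine ⟨?_, mem_univ B⟩
    rintro rfl
    exact hA.1 (subset_empty.1 hAB))
  have h3 : ((univ : Finset (Finset V)).erase ∅).card = 2 ^ Fintype.card V - 1 := by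
    rw [card_erase_of_mem (mem_univ _), card_univ, Fintype.card_finset]
  rw [h3] at h2
  omega

end Pool.Agent.H77.TC
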