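import Pool.Agent.H77.TC.Defs

/-!
# Project TM, counting side: the main relation for generic parameters
-/

set_option autoImplicit false
set_option linter.unusedSectionVars false

open Finset

namespace Pool.Agent.H77.TC

open Pool.Agent.H19.Cub Pool.Agent.H77.SX Pool.Agent.H37.TM

variable {V X : Type} [DecidableEq V] [Fintype V] [Fintype X] {K : Type} [Field K] [CharP K 2]

open Classical in
/-- the part of the cycle over the orbit of `y₀` -/
private noncomputable def kw {P : Type} [Group P] (ρ : P →* Equiv.Perm X) (y₀ : X)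
    (z : Finset V → X → Finset V × P → K) : Finset V → X → Finset V × P → K :=
  fun σ x a => if ρ a.2 x = y₀ then z σ x a else 0

private theorem kw_mem (Q : CubeComplex V X) (d : ℕ) {P : Type} [Group P] (g : V → P)
    (ρ : P →* Equiv.Perm X) (hρ : ∀ v, ρ (g v) = pm Q v) (s : Finset V) (t : V → P → K) (y₀ : X)
    (z : Finset V → X → Finset V × P → K) (hz : z ∈ ZQ K Q d (rX g s t)) :
    kw ρ y₀ z ∈ ZQ K Q d (rX g s t) := by
  classical
  obtain ⟨h1, h2, h3⟩ := mem_ZQ.1 hz
  rw [mem_ZQ]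
  refine ⟨fun σ x h => h1 σ x fun h0 => h ?_, fun σ x hσ v hv => ?_, fun κ x => ?_⟩
  · funext a
    unfold kw
    rw [h0]
    simp
  · funext a
    obtain ⟨A, p⟩ := a
    have h4 := congrFun (h2 σ x hσ v hv) (A, p)
    have h5 : ρ (p * g v) x = ρ p (Q.nb v x) := by
      rw [map_mul, hρ]
      show ρ p (Q.cs v x) = _
      rw [Q.cs_of_mem (hσ hv)]
    show (if ρ p (Q.nb v x) = y₀ then z σ (Q.nb v x) (A, p) else 0) =
      (if ρ (p * g v) x = y₀ then z σ x (A, p * g v) else 0) +
        if v ∈ s ∧ v ∈ A then t v p *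
          (if ρ (p * g v) x = y₀ then z σ x (A.erase v, p * g v) else 0) else 0
    have h6 : z σ (Q.nb v x) (A, p) = z σ x (A, p * g v) +
        if v ∈ s ∧ v ∈ A then t v p * z σ x (A.erase v, p * g v) else 0 := h4
    rw [h5, h6]
    by_cases h : ρ p (Q.nb v x) = y₀
    · simp only [if_pos h]
    · simp only [if_neg h, mul_zero, ite_self, add_zero]
  · funext a
    have h4 := congrFun (h3 κ x) a
    rw [Finset.sum_apply] at h4 ⊢
    show ∑ v ∈ κᶜ, (if ρ a.2 x = y₀ then z (insert v κ) x a else 0) = 0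
    by_cases h : ρ a.2 x = y₀
    · simp only [if_pos h]
      exact h4
    · simp only [if_neg h, sum_const_zero]

/-- the frame condition at the empty set -/
private theorem frame0 (Q : CubeComplex V X) (d : ℕ) {P : Type} [Group P] (g : V → P)
    (s : Finset V) (t : V → P → K) (w : Finset V → X → Finset V × P → K)
    (hw : w ∈ ZQ K Q d (rX g s t)) (x : X) (hx : s ⊆ Q.lab x) (u : V) (hu : u ∈ s) (p : P) :
    w s (Q.nb u x) (∅, p) = w s x (∅, p * g u) := by
  have h1 := congrFun ((mem_ZQ.1 hw).2.1 s x hx u hu) (∅, p)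
  have h2 : w s (Q.nb u x) (∅, p) = w s x (∅, p * g u) +
      if u ∈ s ∧ u ∈ (∅ : Finset V) then t u p * w s x ((∅ : Finset V).erase u, p * g u) else 0 := h1
  rw [h2, if_neg fun h => notMem_empty u h.2, add_zero]

private theorem lab_nb_sub (Q : CubeComplex V X) {s : Finset V}
    (hs : Q.graph.IsClique (s : Set V)) {x : X} (hx : s ⊆ Q.lab x) {u : V} (hu : u ∈ s) :
    s ⊆ Q.lab (Q.nb u x) := by
  intro v hv
  by_cases h : v = u
  · rw [h]
    exact Q.lab_nb u x (hx hu)
  · exact Q.lab_adj v u x (hs hv hu h) (hx hv) (hx hu)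

/-- **The cycles with coefficients in the extension module vanish at `s`, `∅`.** Proof. Fix `y₀ : X`
and let `w σ x (A, p) = if ρ p x = y₀ then z σ x (A, p) else 0`. This is in `ZQ` again: for `v ∈ σ ⊆ lab x`
`ρ (p * g v) x = ρ p (Q.cs v x) = ρ p (Q.nb v x)` (only the coordinate `p * g v` enters in `rX` at
`p`). `StarRel` for `t v p = τ v p + τ v (p * g v)` (`t v (p * g u) = t v p` for `u = v` by `hg`, for
adjacent `u` by `hτ`, `hgc`) and `w` gives
`∑ x (bits 0 on s), ∑ p, (∏ v ∈ s, t v p) * w s x (∅, p) ^ 2 = 0`. Expand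
`∏ v ∈ s, (τ v p + τ v (p * g v)) = ∑ B ∈ s.powerset, ∏ v ∈ s, τ v (p * g_B)`, `g_B` the product over
`B`; by the frame condition `w s (nb_B x) (∅, p * g_B) = w s x (∅, p)`. The points `nb_B x`, `x` with bits
`0` on `s`, `B ⊆ s`, are all `y` with `s ⊆ lab y`, each one once. So
`∑ y, ∑ p, (∏ v ∈ s, τ v p) * w s y (∅, p) ^ 2 = 0`. For every `p` only `y = (ρ p)⁻¹ y₀` counts, so
`hgen` with `c p = z s ((ρ p)⁻¹ y₀) (∅, p)` gives `c = 0`; `y₀ = ρ p x` is arbitrary. -/
theorem key (Q : CubeComplex V X) (bit : X → V → ZMod 2) (hbit : IsBit Q bit) (d : ℕ)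
    (hstar : StarRel K Q bit d) {P : Type} [Group P] [Fintype P] (g : V → P)
    (hg : ∀ v, g v * g v = 1) (hgc : ∀ u v, Q.graph.Adj u v → g u * g v = g v * g u)
    (ρ : P →* Equiv.Perm X) (hρ : ∀ v, ρ (g v) = pm Q v) (s : Finset V)
    (hs : Q.graph.IsClique (s : Set V)) (hc : s.card = d) (τ : V → P → K)
    (hτ : ∀ v u, Q.graph.Adj v u → ∀ p, τ v (p * g u) = τ v p)
    (hgen : ∀ c : P → K, ∑ p, (∏ v ∈ s, τ v p) * c p ^ 2 = 0 → c = 0) :
    ∀ z ∈ ZQ K Q d (rX g s fun v p => τ v p + τ v (p * g v)), ∀ x p, z s x (∅, p) = 0 := by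
  classical
  intro z hz
  obtain ⟨t, ht⟩ : ∃ t : V → P → K, t = fun v p => τ v p + τ v (p * g v) := ⟨_, rfl⟩
  rw [← ht] at hz
  have htv : ∀ v p, t v p = τ v p + τ v (p * g v) := fun v p => by rw [ht]
  have htu : ∀ v u, Q.graph.Adj v u → ∀ p, t v (p * g u) = t v p := by
    intro v u huv p
    rw [htv, htv, hτ v u huv, mul_assoc, hgc u v huv.symm, ← mul_assoc, hτ v u huv]
  have htt : ∀ v u, (u = v ∨ Q.graph.Adj v u) → ∀ p, t v (p * g u) = t v p := by
    rintro v u (rfl | huv) p
    · rw [htv, htv, mul_assoc, hg, mul_one, add_comm]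
    · exact htu v u huv p
  -- the main claim
  have main : ∀ y₀ : X, ∀ p, z s ((ρ p)⁻¹ y₀) (∅, p) = 0 := by
    intro y₀
    obtain ⟨w, hwdef⟩ : ∃ w, w = kw ρ y₀ z := ⟨_, rfl⟩
    have hw : w ∈ ZQ K Q d (rX g s t) := by
      rw [hwdef]
      exact kw_mem Q d g ρ hρ s t y₀ z hz
    let Φ : Finset V → X → K := fun T x =>
      ∑ p, ((∏ v ∈ T, t v p) * ∏ v ∈ s \ T, τ v p) * w s x (∅, p) ^ 2
    let A : Finset V → Finset X := fun T =>
      univ.filter fun x => s ⊆ Q.lab x ∧ ∀ v ∈ T, bit x v = 0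
    have hΦ : ∀ T u, u ∈ s → u ∉ T → T ⊆ s → ∀ x, s ⊆ Q.lab x →
        Φ (insert u T) x = Φ T x + Φ T (Q.nb u x) := by
      intro T u hu huT hT x hx
      have h1 : s \ T = insert u (s \ insert u T) := by
        ext v
        simp only [mem_sdiff, mem_insert]
        constructor
        · rintro ⟨h2, h3⟩
          by_cases h4 : v = u
          · exact Or.inl h4
          · exact Or.inr ⟨h2, fun h5 => h5.elim h4 h3⟩
        · rintro (rfl | ⟨h2, h3⟩)
          · exact ⟨hu, huT⟩
          · exact ⟨h2, fun h4 => h3 (Or.inr h4)⟩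
      have h2 : u ∉ s \ insert u T := by simp
      have h3 : ∀ p, (∏ v ∈ T, t v (p * g u)) = ∏ v ∈ T, t v p := fun p =>
        prod_congr rfl fun v hv => htu v u (hs (hT hv) hu fun h => huT (h ▸ hv)) p
      have h4 : ∀ p, (∏ v ∈ s \ insert u T, τ v (p * g u)) = ∏ v ∈ s \ insert u T, τ v p := by
        intro p
        refine prod_congr rfl fun v hv => ?_
        have hvs := (mem_sdiff.1 hv).1
        have hvu : v ≠ u := fun h => (mem_sdiff.1 hv).2 (h ▸ mem_insert_self v T)
        exact hτ v u (hs hvs hu hvu) p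
      have h5 : Φ T (Q.nb u x) =
          ∑ p, ((∏ v ∈ T, t v p) * (τ u (p * g u) * ∏ v ∈ s \ insert u T, τ v p)) *
            w s x (∅, p) ^ 2 := by
        show ∑ p, ((∏ v ∈ T, t v p) * ∏ v ∈ s \ T, τ v p) * w s (Q.nb u x) (∅, p) ^ 2 = _
        refine Fintype.sum_equiv (Equiv.mulRight (g u)) _ _ fun p => ?_
        rw [Equiv.coe_mulRight, h1, prod_insert h2, h3, h4, mul_assoc p, hg, mul_one,
          frame0 Q d g s t w hw x hx u hu p]
      rw [h5]
      show ∑ p, ((∏ v ∈ insert u T, t v p) * ∏ v ∈ s \ insert u T, τ v p) * w s x (∅, p) ^ 2 =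
        ∑ p, ((∏ v ∈ T, t v p) * ∏ v ∈ s \ T, τ v p) * w s x (∅, p) ^ 2 + _
      rw [← sum_add_distrib]
      refine sum_congr rfl fun p _ => ?_
      rw [h1, prod_insert h2, prod_insert huT, htv u p]
      ring
    have hstep : ∀ T u, u ∈ s → u ∉ T → T ⊆ s →
        ∑ x ∈ A (insert u T), Φ (insert u T) x = ∑ x ∈ A T, Φ T x := by
      intro T u hu huT hT
      have h1 : ∑ x ∈ A (insert u T), Φ (insert u T) x =
          ∑ x ∈ A (insert u T), Φ T x + ∑ x ∈ A (insert u T), Φ T (Q.nb u x) := by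
        rw [← sum_add_distrib]
        refine sum_congr rfl fun x hx => ?_
        exact hΦ T u hu huT hT x (mem_filter.1 hx).2.1
      have h2 : ∑ x ∈ A T, Φ T x = ∑ x ∈ (A T).filter (fun x => bit x u = 0), Φ T x +
          ∑ x ∈ (A T).filter (fun x => ¬ bit x u = 0), Φ T x :=
        (sum_filter_add_sum_filter_not _ _ _).symm
      have h3 : (A T).filter (fun x => bit x u = 0) = A (insert u T) := by
        ext x
        simp only [A, mem_filter, mem_univ, true_and, mem_insert, forall_eq_or_imp]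
        tauto
      have hz2 : ∀ b : ZMod 2, ¬ b = 0 → b + 1 = 0 := by decide
      have hz1 : ∀ b : ZMod 2, b = 0 → ¬ b + 1 = 0 := by decide
      have h4 : ∑ x ∈ A (insert u T), Φ T (Q.nb u x) =
          ∑ x ∈ (A T).filter (fun x => ¬ bit x u = 0), Φ T x := by
        refine sum_nbij' (fun x => Q.nb u x) (fun x => Q.nb u x) ?_ ?_ ?_ ?_ ?_
        · intro x hx
          obtain ⟨-, h5, h6⟩ := mem_filter.1 hx
          refine mem_filter.2 ⟨mem_filter.2 ⟨mem_univ _, lab_nb_sub Q hs h5 hu, fun v hv => ?_⟩, ?_⟩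
          · have hvu : ¬ v = u := fun h => huT (h ▸ hv)
            rw [hbit u x (h5 hu), if_neg hvu, add_zero]
            exact h6 v (mem_insert_of_mem hv)
          · rw [hbit u x (h5 hu), if_pos rfl]
            exact hz1 _ (h6 u (mem_insert_self u T))
        · intro x hx
          obtain ⟨h7, h8⟩ := mem_filter.1 hx
          obtain ⟨-, h5, h6⟩ := mem_filter.1 h7
          refine mem_filter.2 ⟨mem_univ _, lab_nb_sub Q hs h5 hu, fun v hv => ?_⟩
          rw [hbit u x (h5 hu)]
          by_cases hvu : v = u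
          · rw [if_pos hvu, hvu]
            exact hz2 _ h8
          · rw [if_neg hvu, add_zero]
            exact h6 v ((mem_insert.1 hv).resolve_left hvu)
        · intro x hx
          exact Q.nb_nb u x ((mem_filter.1 hx).2.1 hu)
        · intro x hx
          exact Q.nb_nb u x ((mem_filter.1 (mem_filter.1 hx).1).2.1 hu)
        · intro x _
          rfl
      rw [h1, h2, h3, h4]
    have hall : ∀ T, T ⊆ s → ∑ x ∈ A T, Φ T x = ∑ x ∈ A ∅, Φ ∅ x := by
      intro T
      induction T using Finset.induction_on with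
      | empty => exact fun _ => rfl
      | insert u T huT ih =>
        intro hT
        have hT' : T ⊆ s := (subset_insert u T).trans hT
        rw [hstep T u (hT (mem_insert_self u T)) huT hT', ih hT']
    have h0 : ∑ x ∈ A ∅, Φ ∅ x = 0 := by
      rw [← hall s Subset.rfl]
      have h1 := hstar P g hg hgc s hs hc t htt w hw
      refine Eq.trans ?_ h1
      refine sum_congr rfl fun x _ => sum_congr rfl fun p _ => ?_
      rw [sdiff_self, bot_eq_empty, prod_empty, mul_one]
    have hw0 : ∀ y p, w s y (∅, p) = if y = (ρ p)⁻¹ y₀ then z s y (∅, p) else 0 := by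
      intro y p
      rw [hwdef]
      show (if ρ p y = y₀ then z s y (∅, p) else 0) = _
      have h1 : (ρ p y = y₀) ↔ (y = (ρ p)⁻¹ y₀) := by
        rw [Equiv.Perm.eq_inv_iff_eq]
      by_cases h : ρ p y = y₀
      · rw [if_pos h, if_pos (h1.1 h)]
      · rw [if_neg h, if_neg fun h2 => h (h1.2 h2)]
    have hsum : ∑ p, (∏ v ∈ s, τ v p) * (z s ((ρ p)⁻¹ y₀) (∅, p)) ^ 2 = 0 := by
      rw [← h0]
      show _ = ∑ x ∈ A ∅, ∑ p, ((∏ v ∈ (∅ : Finset V), t v p) * ∏ v ∈ s \ ∅, τ v p) *
        w s x (∅, p) ^ 2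
      rw [sum_comm]
      refine sum_congr rfl fun p _ => ?_
      simp only [prod_empty, one_mul, sdiff_empty]
      rw [← mul_sum]
      congr 1
      by_cases hA : (ρ p)⁻¹ y₀ ∈ A ∅
      · rw [sum_eq_single_of_mem _ hA]
        · rw [hw0, if_pos rfl]
        · intro y _ hy
          rw [hw0, if_neg hy]
          ring
      · have h1 : z s ((ρ p)⁻¹ y₀) = 0 := by
          by_contra hne
          exact hA (mem_filter.2 ⟨mem_univ _, ((mem_ZQ.1 hz).1 s _ hne).1,
            fun v hv => absurd hv (notMem_empty v)⟩)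
        rw [h1]
        symm
        rw [sum_eq_zero]
        · simp
        · intro y hy
          have hne : ¬ y = (ρ p)⁻¹ y₀ := fun h => hA (h ▸ hy)
          rw [hw0, if_neg hne]
          ring
    intro p
    exact congrFun (hgen (fun p => z s ((ρ p)⁻¹ y₀) (∅, p)) hsum) p
  intro x p
  have h1 := main (ρ p x) p
  have h2 : (ρ p)⁻¹ (ρ p x) = x := (ρ p).symm_apply_apply x
  rwa [h2] at h1

end Pool.Agent.H77.TC
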