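import Pool.Agent.H77.TC.Lower
import Pool.Agent.H77.TC.Filt
import Pool.Agent.H77.TC.Key
import Pool.Agent.H77.SX.ExtR
import Pool.Agent.H77.SX.Gen
import Pool.Agent.H4.FC.Defs

/-!
# Project TM, counting side: the dimension count
-/

set_option autoImplicit false
set_option linter.unusedSectionVars false

open Finset

namespace Pool.Agent.H77.TC

open Pool.Agent.H19.Cub Pool.Agent.H77.SX Pool.Agent.H37.TM Pool.Agent.H77.SW
  Pool.Agent.H4.Singer

/-- Linear maps with trivial common kernel. -/
private theorem count_inj {K Z E : Type} [Field K] [AddCommGroup Z] [Module K Z] [Module.Finite K Z]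
    [AddCommGroup E] [Module K E] [Module.Finite K E] {ι : Type} [DecidableEq ι] (F : Finset ι)
    (f : ι → Z →ₗ[K] E) : Module.finrank K Z ≤
      Module.finrank K (⨅ i ∈ F, LinearMap.ker (f i) : Submodule K Z) +
        ∑ i ∈ F, (Module.finrank K Z - Module.finrank K (LinearMap.ker (f i))) := by
  induction F using Finset.induction_on with
  | empty =>
    have h0 : (⨅ i ∈ (∅ : Finset ι), LinearMap.ker (f i)) = (⊤ : Submodule K Z) := by simp
    rw [h0, finrank_top]
    simp
  | insert i F hi ih =>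
    rw [sum_insert hi, Finset.iInf_insert]
    have h1 := Submodule.finrank_sup_add_finrank_inf_eq (LinearMap.ker (f i))
      (⨅ j ∈ F, LinearMap.ker (f j))
    have h2 : Module.finrank K
        ((LinearMap.ker (f i)) ⊔ (⨅ j ∈ F, LinearMap.ker (f j)) : Submodule K Z) ≤
        Module.finrank K Z := Submodule.finrank_le _
    omega

variable {V X : Type} [DecidableEq V] [Fintype V] [Fintype X] {K : Type} [Field K] [CharP K 2]

/-- the sum over the labels of the cubes -/
private theorem count_facets (Q : CubeComplex V X) (n : ℕ) {P : Type} [Group P] [Fintype P]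
    (g : V → P) (c : ℕ) (h : ∀ x, ∀ s : Finset V, s ⊆ Q.lab x → Q.graph.IsClique (s : Set V) →
      s.card = n → dQ K Q n g ≤ Module.finrank K (ZQs K Q n g s) + c) :
    dQ K Q n g ≤ 2 ^ Fintype.card V * c := by
  classical
  let Z := ZQ K Q n (rG K g)
  let f : Finset V → Z →ₗ[K] (X → P → K) := fun σ =>
    (LinearMap.proj (R := K) (φ := fun _ : Finset V => X → P → K) σ).comp Z.subtype
  have h1 := count_inj (K := K) (univ : Finset (Finset V)) f
  have h2 : (⨅ i ∈ (univ : Finset (Finset V)), LinearMap.ker (f i) : Submodule K Z) = ⊥ := by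
    rw [eq_bot_iff]
    intro z hz
    rw [Submodule.mem_bot]
    apply Subtype.ext
    funext σ
    have h3 := (Submodule.mem_iInf _).1 ((Submodule.mem_iInf _).1 hz σ) (mem_univ σ)
    exact h3
  rw [h2, finrank_bot, zero_add] at h1
  refine h1.trans ?_
  have h4 : ∀ σ ∈ (univ : Finset (Finset V)),
      Module.finrank K Z - Module.finrank K (LinearMap.ker (f σ)) ≤ c := by
    intro σ _
    have h5 : Module.finrank K (LinearMap.ker (f σ)) = Module.finrank K (ZQs K Q n g σ) := by
      have e : (LinearMap.ker (f σ)).map Z.subtype = ZQs K Q n g σ := by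
        ext z
        constructor
        · rintro ⟨w, hw, rfl⟩
          exact ⟨w.2, hw⟩
        · rintro ⟨hz1, hz2⟩
          exact ⟨⟨z, hz1⟩, hz2, rfl⟩
      rw [← e]
      exact (Submodule.equivMapOfInjective Z.subtype Z.injective_subtype _).finrank_eq
    by_cases hσ : ∃ x, σ ⊆ Q.lab x ∧ Q.graph.IsClique (σ : Set V) ∧ σ.card = n
    · obtain ⟨x, hx, hcl, hcard⟩ := hσ
      have h6 := h x σ hx hcl hcard
      have h7 : Module.finrank K Z = dQ K Q n g := rfl
      omega
    · have h8 : ZQs K Q n g σ = ZQ K Q n (rG K g) := by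
        refine le_antisymm inf_le_left fun z hz => ⟨hz, ?_⟩
        show z σ = 0
        funext x
        by_contra hne
        exact hσ ⟨x, ((mem_ZQ.1 hz).1 σ x hne)⟩
      rw [h5, h8]
      have h7 : Module.finrank K Z = Module.finrank K (ZQ K Q n (rG K g)) := rfl
      omega
  refine (sum_le_card_nsmul _ _ _ h4).trans ?_
  rw [smul_eq_mul, Finset.card_univ, Fintype.card_finset]

theorem gr_racg (G : SimpleGraph V) : Pool.Agent.H4.FC.gr (racg G) = G := by
  classical
  ext u v
  show (u ≠ v ∧ (racg G) u v ≠ 0) ↔ G.Adj u v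
  have h : (racg G) u v = if u = v then 1 else if G.Adj u v then 2 else 0 := by
    show (racg G).M u v = _
    unfold racg
    simp only [Matrix.of_apply]
    split_ifs <;> rfl
  rw [h]
  constructor
  · rintro ⟨h1, h2⟩
    rw [if_neg h1] at h2
    by_contra h3
    rw [if_neg h3] at h2
    exact h2 rfl
  · intro h1
    refine ⟨h1.ne, ?_⟩
    rw [if_neg h1.ne, if_pos h1]
    exact two_ne_zero

private theorem FQ_sq {G : SimpleGraph V} {Ps : Type} [Group Ps] {πs : RGrp G →* Ps} {P : Type}
    [Group P] (D : FQ (racg G) πs P) (v : V) : D.g v * D.g v = 1 := by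
  have h1 := gen_mul_gen G v
  show D.π (gen G v) * D.π (gen G v) = 1
  rw [← map_mul, h1, map_one]

/-- **The dimension count.** As `Pool.Agent.H77.SX.small`; `ρ = ρs ∘ D.κ`. Only the `s` with
`s ⊆ Q.lab x` for some `x` matter (otherwise the component at `s` of a cycle vanishes); for these
`hN` and `LinkGood` give the hypothesis of `exists_gen`. -/
theorem small (Xg : GenSeq K) (Q : CubeComplex V X) (bit : X → V → ZMod 2) (hbit : IsBit Q bit)
    (d : ℕ) (hstar : StarRel K Q bit d) (hN : NoNb Q d) {Ps : Type} [Group Ps]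
    (πs : RGrp Q.graph →* Ps) (ρs : Ps →* Equiv.Perm X)
    (hρs : ∀ v, ρs (πs (gen Q.graph v)) = pm Q v)
    (hne : ∃ (P : Type) (_ : Group P) (_ : Fintype P) (D : FQ (racg Q.graph) πs P),
      LinkGood Q.graph D.g) (ε : ℝ) (hε : 0 < ε) :
    ∃ (P : Type) (_ : Group P) (_ : Fintype P) (D : FQ (racg Q.graph) πs P),
      (dQ K Q d D.g : ℝ) ≤ ε * Fintype.card P := by
  classical
  by_contra hcon
  push Not at hcon
  let S : Set ℝ := {x | ∃ (P : Type) (_ : Group P) (_ : Fintype P) (D : FQ (racg Q.graph) πs P),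
    LinkGood Q.graph D.g ∧ x = dQ K Q d D.g / Fintype.card P}
  have hne' : S.Nonempty := by
    obtain ⟨P, grp, fin, D, hD⟩ := hne
    exact ⟨_, P, grp, fin, D, hD, rfl⟩
  have hcard : ∀ (P : Type) [Group P] [Fintype P], (0 : ℝ) < Fintype.card P := by
    intro P _ _
    exact_mod_cast Fintype.card_pos
  have hlow : ∀ x ∈ S, ε ≤ x := by
    rintro x ⟨P, grp, fin, D, _, rfl⟩
    have h1 := hcon P grp fin D
    rw [le_div_iff₀ (hcard P)]
    exact h1.le
  have hbdd : BddBelow S := ⟨ε, hlow⟩
  set z := sInf S with hz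
  have hzε : ε ≤ z := le_csInf hne' hlow
  have hz0 : 0 < z := hε.trans_le hzε
  set N : ℝ := 2 ^ Fintype.card V with hNdef
  have hN0 : 0 < N := by positivity
  obtain ⟨x, ⟨P, grp, fin, D, hgood, rfl⟩, hx⟩ :=
    exists_lt_of_csInf_lt hne' (show sInf S < z + z / (N * N) by
      have : 0 < z / (N * N) := by positivity
      linarith)
  set m : ℝ := (Fintype.card P : ℝ) with hm
  have hm0 : 0 < m := hcard P
  set dd : ℝ := (dQ K Q d D.g : ℝ) with hdd
  have h1 : dd < (z + z / (N * N)) * m := by
    rwa [div_lt_iff₀ hm0] at hx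
  have h2 : z * m ≤ dd := by
    have h3 : z ≤ dd / m := csInf_le hbdd ⟨P, grp, fin, D, hgood, rfl⟩
    rwa [le_div_iff₀ hm0] at h3
  -- the labels of the cubes
  have hfac : ∀ x, ∀ s : Finset V, s ⊆ Q.lab x → Q.graph.IsClique (s : Set V) → s.card = d →
      dd ≤ Module.finrank K (ZQs K Q d D.g s) + N * (dd - z * m) := by
    intro x s hsx hs hsc
    obtain ⟨I, _, _, ι, τ, hι, hgen⟩ := exists_gen Xg Q.graph D.g s
      (hgood s (hN x s hsx hs hsc))
    have hι' : ∀ v u, (Pool.Agent.H4.FC.gr (racg Q.graph)).Adj v u → ∀ p,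
        ι v (p * D.g u) = ι v p := by
      rw [gr_racg]
      exact hι
    obtain ⟨P', grp', fin', D', j, hgood', hj, hjs, hj2⟩ := exists_group (racg Q.graph) πs D
      (by rw [gr_racg]; exact hgood) s ι hι'
    rw [gr_racg] at hgood'
    obtain ⟨R, hR, hRr⟩ := exists_R (K := K) D.g (FQ_sq D) s ι τ
    have hjg : ∀ v, (ePr V P I).comp j (D'.g v) = D.g v := by
      intro v
      rw [MonoidHom.comp_apply, hj]
      rfl
    have h3 := lower (K := K) (A := Finset V) Q d D'.g D.g ((ePr V P I).comp j) hjg hjs hj2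
      (rX D.g s fun v p => τ (ι v p) + τ (ι v (p * D.g v)))
      (fun v f f' p hff a => by
        show f (a, p * D.g v) + _ = f' (a, p * D.g v) + _
        rw [hff a, hff (a.erase v)]) (fun x => R (j x)) (fun x => hR (j x))
      (fun x v f => by
        show rX D.g s (fun v p => τ (ι v p) + τ (ι v (p * D.g v))) v (R (j (x * D'.g v)) f) =
          R (j x) f
        rw [map_mul, hj]
        exact hRr (j x) v f)
    have h4 := upper_rX Q d D.g s (fun v p => τ (ι v p) + τ (ι v (p * D.g v))) s
      (key Q bit hbit d hstar D.g (FQ_sq D)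
        (fun u v huv => by
          show D.π (gen Q.graph u) * D.π (gen Q.graph v) = D.π (gen Q.graph v) * D.π (gen Q.graph u)
          rw [← map_mul, ← map_mul, gen_comm Q.graph u v huv])
        (ρs.comp D.κ)
        (fun v => by
          show ρs (D.κ (D.π (gen Q.graph v))) = _
          rw [D.κπ, hρs]) s hs hsc (fun v p => τ (ι v p))
        (fun v u hvu p => by rw [hι v u hvu p]) hgen)
    have h5 : z ≤ dQ K Q d D'.g / Fintype.card P' :=
      csInf_le hbdd ⟨P', grp', fin', D', hgood', rfl⟩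
    rw [le_div_iff₀ (hcard P')] at h5
    have h6 : (Fintype.card (Finset V × P) : ℝ) * dQ K Q d D'.g ≤ Fintype.card P' *
        Module.finrank K (ZQ K Q d
          (rX D.g s fun v p => τ (ι v p) + τ (ι v (p * D.g v)))) := by exact_mod_cast h3
    have h7 : (Fintype.card (Finset V × P) : ℝ) = N * m := by
      rw [Fintype.card_prod, Fintype.card_finset]
      push_cast
      rfl
    rw [h7] at h6
    have h8 : N * m * z ≤ Module.finrank K (ZQ K Q d
          (rX D.g s fun v p => τ (ι v p) + τ (ι v (p * D.g v)))) := by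
      have h9 : (Fintype.card P' : ℝ) * (N * m * z) ≤ Fintype.card P' *
          Module.finrank K (ZQ K Q d
            (rX D.g s fun v p => τ (ι v p) + τ (ι v (p * D.g v)))) := by
        refine le_trans ?_ h6
        have h10 := mul_le_mul_of_nonneg_left h5 (mul_nonneg hN0.le hm0.le)
        linarith
      exact le_of_mul_le_mul_left h9 (hcard P')
    have h9 : (Module.finrank K (ZQ K Q d
        (rX D.g s fun v p => τ (ι v p) + τ (ι v (p * D.g v)))) : ℝ) ≤
        Module.finrank K (ZQs K Q d D.g s) + (N - 1) * dd := by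
      have h10 : ((2 ^ Fintype.card V - 1 : ℕ) : ℝ) = N - 1 := by
        rw [Nat.cast_sub Nat.one_le_two_pow]
        push_cast
        rfl
      rw [← h10, hdd]
      exact_mod_cast h4
    linarith
  have hc0 : 0 ≤ N * (dd - z * m) := mul_nonneg hN0.le (by linarith)
  have h3 := count_facets (K := K) Q d D.g ⌊N * (dd - z * m)⌋₊ (by
    intro x s hsx hs hsc
    have h4 := hfac x s hsx hs hsc
    have h5 : ((dQ K Q d D.g : ℤ) : ℝ) -
        ((Module.finrank K (ZQs K Q d D.g s) : ℤ) : ℝ) ≤ N * (dd - z * m) := by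
      push_cast
      linarith
    have h6 : (dQ K Q d D.g : ℤ) - Module.finrank K (ZQs K Q d D.g s) ≤
        ⌊N * (dd - z * m)⌋ := by
      rw [Int.le_floor]
      push_cast at h5 ⊢
      exact h5
    have h7 : (⌊N * (dd - z * m)⌋₊ : ℤ) = ⌊N * (dd - z * m)⌋ := Int.natCast_floor_eq_floor hc0
    omega)
  have h4 : dd ≤ N * ⌊N * (dd - z * m)⌋₊ := by
    have h5 : ((dQ K Q d D.g : ℕ) : ℝ) ≤
        ((2 ^ Fintype.card V * ⌊N * (dd - z * m)⌋₊ : ℕ) : ℝ) := Nat.cast_le.2 h3
    rw [Nat.cast_mul, Nat.cast_pow, Nat.cast_ofNat] at h5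
    exact h5
  have h5 : (⌊N * (dd - z * m)⌋₊ : ℝ) ≤ N * (dd - z * m) := Nat.floor_le hc0
  have h6 : dd ≤ N * (N * (dd - z * m)) := h4.trans (mul_le_mul_of_nonneg_left h5 hN0.le)
  have h7 : dd - z * m < z / (N * N) * m := by linarith
  have h8 : N * (N * (dd - z * m)) < N * (N * (z / (N * N) * m)) :=
    mul_lt_mul_of_pos_left (mul_lt_mul_of_pos_left h7 hN0) hN0
  have h9 : N * (N * (z / (N * N) * m)) = z * m := by
    field_simp
  linarith

end Pool.Agent.H77.TC
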