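import Pool.Agent.H37.TM.Defs
import Pool.Agent.H19.Cub.Compl
import Pool.Agent.H4.Singer.Levels

/-!
# Project TM, counting side: definitions
-/

set_option autoImplicit false
set_option linter.unusedSectionVars false

open Finset

namespace Pool.Agent.H77.TC

open Pool.Agent.H19.Cub Pool.Agent.H77.SX Pool.Agent.H37.TM

variable {V X : Type} [DecidableEq V]

/-- the dimension of the space of cycles with coefficients in the regular representation -/
noncomputable def dQ (K : Type) [Field K] [Fintype V] (Q : CubeComplex V X) (n : ℕ) {P : Type}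
    [Group P] (g : V → P) : ℕ := Module.finrank K (ZQ K Q n (rG K g))

/-- the cycles whose components at `σ` vanish -/
def ZQs (K : Type) [Field K] [Fintype V] (Q : CubeComplex V X) (n : ℕ) {P : Type} [Group P]
    (g : V → P) (σ : Finset V) : Submodule K (Finset V → X → P → K) :=
  ZQ K Q n (rG K g) ⊓
    LinearMap.ker (LinearMap.proj (R := K) (φ := fun _ : Finset V => X → P → K) σ)

/-- no label is adjacent to all labels of a cube of dimension `d` -/
def NoNb (Q : CubeComplex V X) (d : ℕ) : Prop :=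
  ∀ x, ∀ s : Finset V, s ⊆ Q.lab x → Q.graph.IsClique (s : Set V) → s.card = d →
    ∀ u, ∃ v ∈ s, ¬ Q.graph.Adj v u

/-- the completed involution as a permutation -/
def pm (Q : CubeComplex V X) (v : V) : Equiv.Perm X :=
  ⟨Q.cs v, Q.cs v, Q.isSpec.inv v, Q.isSpec.inv v⟩

/-- a covering of cube complexes with labels: `f` on the vertices, `l` on the labels -/
structure IsCov {V' X' : Type} [DecidableEq V'] (Q' : CubeComplex V' X') (Q : CubeComplex V X)
    (f : X' → X) (l : V' → V) : Prop where
  inj : ∀ x, ∀ h ∈ Q'.lab x, ∀ k ∈ Q'.lab x, l h = l k → h = k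
  lab : ∀ x, (Q'.lab x).image l = Q.lab (f x)
  nb : ∀ x, ∀ h ∈ Q'.lab x, f (Q'.nb h x) = Q.nb (l h) (f x)
  adj : ∀ x, ∀ h ∈ Q'.lab x, ∀ k ∈ Q'.lab x, (Q'.graph.Adj h k ↔ Q.graph.Adj (l h) (l k))

end Pool.Agent.H77.TC
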