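import Pool.Agent.H77.TC.Defs

/-!
# Project TM, counting side: the lower bound for modules over extensions by two-groups
-/

set_option autoImplicit false
set_option linter.unusedSectionVars false

open Finset

namespace Pool.Agent.H77.TC

open Pool.Agent.H19.Cub Pool.Agent.H77.SX Pool.Agent.H37.TM

variable {V X : Type} [DecidableEq V] [Fintype V] [Fintype X] {K : Type} [Field K] [CharP K 2]

/-- the involutions on the functions `P → (J → K)` -/
private def lrh {P : Type} [Group P] (g : V → P) {J : Type}
    (r : V → (J → K) →ₗ[K] (J → K)) (v : V) : (P → J → K) →ₗ[K] (P → J → K) where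
  toFun φ p := r v (φ (p * g v))
  map_add' φ ψ := by
    funext p
    simp
  map_smul' c φ := by
    funext p
    simp

/-- the functions which are invariant under the left translations by `H` -/
private def lS (Q : CubeComplex V X) (n : ℕ) {P : Type} [Group P] (g : V → P) {J : Type}
    (r : V → (J → K) →ₗ[K] (J → K)) (H : Subgroup P) : Submodule K (Finset V → X → P → J → K) where
  carrier := {φ | φ ∈ ZQ K Q n (lrh g r) ∧ ∀ h ∈ H, ∀ σ x p, φ σ x (h * p) = φ σ x p}
  zero_mem' := ⟨Submodule.zero_mem _, fun _ _ _ _ _ => rfl⟩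
  add_mem' := by
    rintro φ ψ ⟨h1, h2⟩ ⟨h3, h4⟩
    refine ⟨Submodule.add_mem _ h1 h3, fun h hh σ x p => ?_⟩
    simp only [Pi.add_apply, h2 h hh, h4 h hh]
  smul_mem' := by
    rintro c φ ⟨h1, h2⟩
    refine ⟨Submodule.smul_mem _ c h1, fun h hh σ x p => ?_⟩
    simp only [Pi.smul_apply, h2 h hh]

private theorem mem_lS {Q : CubeComplex V X} {n : ℕ} {P : Type} [Group P] {g : V → P} {J : Type}
    {r : V → (J → K) →ₗ[K] (J → K)} {H : Subgroup P} {φ : Finset V → X → P → J → K} :
    φ ∈ lS Q n g r H ↔ φ ∈ ZQ K Q n (lrh g r) ∧ ∀ h ∈ H, ∀ σ x p, φ σ x (h * p) = φ σ x p := Iff.rfl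

/-- left translation preserves the cycles -/
private theorem trans_mem {Q : CubeComplex V X} {n : ℕ} {P : Type} [Group P] {g : V → P} {J : Type}
    {r : V → (J → K) →ₗ[K] (J → K)} {φ : Finset V → X → P → J → K} (h : φ ∈ ZQ K Q n (lrh g r))
    (c : P) : (fun σ x p => φ σ x (c * p)) ∈ ZQ K Q n (lrh g r) := by
  obtain ⟨h1, h2, h3⟩ := h
  refine ⟨fun σ x hσ => h1 σ x fun h0 => hσ ?_, fun σ x hs v hv => ?_, fun κ x => ?_⟩
  · funext p
    change φ σ x (c * p) = 0
    rw [h0]
    rfl
  · funext p
    have := congrFun (h2 σ x hs v hv) (c * p)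
    simpa [lrh, mul_assoc] using this
  · funext p
    have := congrFun (h3 κ x) (c * p)
    simpa [Finset.sum_apply] using this

/-- the left translation as a linear map -/
private def lT {P : Type} [Group P] {J : Type} (c : P) :
    (Finset V → X → P → J → K) →ₗ[K] (Finset V → X → P → J → K) where
  toFun φ σ x p := φ σ x p + φ σ x (c * p)
  map_add' φ ψ := by
    funext σ x p
    simp only [Pi.add_apply]
    abel
  map_smul' k φ := by
    funext σ x p
    simp

private theorem char_add {J : Type} (f : J → K) : f + f = 0 := by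
  funext j
  exact CharTwo.add_self_eq_zero _

private theorem step (Q : CubeComplex V X) (n : ℕ) {P : Type} [Group P] [Fintype P] (g : V → P)
    {J : Type} [Fintype J] (r : V → (J → K) →ₗ[K] (J → K)) {H H' : Subgroup P} (hle : H ≤ H')
    (hc : Nat.card H' = 2 * Nat.card H) :
    Module.finrank K (lS Q n g r H) ≤ 2 * Module.finrank K (lS Q n g r H') := by
  have hpos : 0 < Nat.card H := Nat.card_pos
  -- an element outside
  obtain ⟨c, hc1, hc2⟩ : ∃ c ∈ H', c ∉ H := by
    by_contra hcon
    push Not at hcon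
    have : H = H' := le_antisymm hle hcon
    rw [this] at hc hpos
    omega
  have hidx : (H.subgroupOf H').index = 2 := by
    have h1 := (H.subgroupOf H').card_mul_index
    have h2 : Nat.card (H.subgroupOf H') = Nat.card H :=
      Nat.card_congr (Subgroup.subgroupOfEquivOfLe hle).toEquiv
    rw [h2, hc] at h1
    have h3 : Nat.card H * (H.subgroupOf H').index = Nat.card H * 2 := by rw [h1]; ring
    exact Nat.eq_of_mul_eq_mul_left hpos h3
  have hmul : ∀ a ∈ H', ∀ b ∈ H', a ∉ H → b ∉ H → a * b ∈ H := by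
    intro a ha b hb ha' hb'
    have := (Subgroup.mul_mem_iff_of_index_two hidx (a := ⟨a, ha⟩) (b := ⟨b, hb⟩))
    simp only [Subgroup.mem_subgroupOf] at this
    exact this.2 (by simp [ha', hb'])
  have hci : c⁻¹ ∉ H := fun h => hc2 (by simpa using H.inv_mem h)
  have hnot : ∀ h ∈ H, c * h ∉ H := fun h hh h' => hc2 (by
    have := H.mul_mem h' (H.inv_mem hh)
    simpa using this)
  -- the norm maps into the invariants
  have hmaps : ∀ φ ∈ lS Q n g r H, lT c φ ∈ lS Q n g r H' := by
    rintro φ ⟨h1, h2⟩
    refine ⟨Submodule.add_mem _ h1 (trans_mem h1 c), fun h hh σ x p => ?_⟩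
    change φ σ x (h * p) + φ σ x (c * (h * p)) = φ σ x p + φ σ x (c * p)
    by_cases hH : h ∈ H
    · rw [h2 h hH]
      have h3 : c * h * c⁻¹ ∈ H := hmul _ (H'.mul_mem hc1 hh) _ (H'.inv_mem hc1) (hnot h hH) hci
      have h4 : c * (h * p) = c * h * c⁻¹ * (c * p) := by group
      rw [h4, h2 _ h3]
    · have h3 : h * c⁻¹ ∈ H := hmul _ hh _ (H'.inv_mem hc1) hH hci
      have h4 : h * p = h * c⁻¹ * (c * p) := by group
      have h5 : c * h ∈ H := hmul _ hc1 _ hh hc2 hH
      have h6 : c * (h * p) = c * h * p := by group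
      rw [h6, h2 _ h5, h4, h2 _ h3]
      exact add_comm _ _
  let N : lS Q n g r H →ₗ[K] lS Q n g r H' :=
    ((lT c).comp (lS Q n g r H).subtype).codRestrict _ fun φ => hmaps φ.1 φ.2
  have hker : Module.finrank K (LinearMap.ker N) ≤ Module.finrank K (lS Q n g r H') := by
    have hk : ∀ x : LinearMap.ker N, ((x : lS Q n g r H) : Finset V → X → P → J → K) ∈
        lS Q n g r H' := by
      rintro ⟨⟨φ, h1, h2⟩, hx⟩
      have h0 : ∀ σ x p, φ σ x (c * p) = φ σ x p := by
        intro σ x p
        have h3 : (N ⟨φ, h1, h2⟩ : Finset V → X → P → J → K) = 0 := by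
          rw [LinearMap.mem_ker.1 hx]
          rfl
        have h4 : φ σ x p + φ σ x (c * p) = 0 := congrFun (congrFun (congrFun h3 σ) x) p
        have h5 := char_add (K := K) (φ σ x p)
        exact (add_left_cancel (h5.trans h4.symm)).symm
      refine ⟨h1, fun h hh σ x p => ?_⟩
      change φ σ x (h * p) = φ σ x p
      by_cases hH : h ∈ H
      · exact h2 h hH σ x p
      · have h3 : h * c⁻¹ ∈ H := hmul _ hh _ (H'.inv_mem hc1) hH hci
        have h4 : h * p = h * c⁻¹ * (c * p) := by group
        rw [h4, h2 _ h3, h0]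
    let M : LinearMap.ker N →ₗ[K] lS Q n g r H' :=
      ((lS Q n g r H).subtype.comp (LinearMap.ker N).subtype).codRestrict _ hk
    refine LinearMap.finrank_le_finrank_of_injective (f := M) ?_
    intro x y hxy
    have := congrArg Subtype.val hxy
    exact Subtype.ext (Subtype.ext this)
  have h1 := LinearMap.finrank_range_add_finrank_ker N
  have h2 := Submodule.finrank_le (LinearMap.range N)
  omega

/-- **The lower bound.** `Pool.Agent.H77.SX.lower` for `ZQ` (one more index `x : X`; the proof is the
same, functions `φ : Finset V → X → P' → (A × P → K)`, in the frame condition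
`φ σ (nb v x) = r̂ v (φ σ x)`). -/
theorem lower (Q : CubeComplex V X) (n : ℕ) {P' P A : Type} [Group P'] [Fintype P'] [Group P]
    [Fintype P] [Fintype A] (g' : V → P') (g : V → P) (q : P' →* P) (hq : ∀ v, q (g' v) = g v)
    (hsurj : Function.Surjective q) (h2 : IsPGroup 2 q.ker)
    (r : V → (A × P → K) →ₗ[K] (A × P → K))
    (hloc : ∀ v (f f' : A × P → K) p, (∀ a, f (a, p * g v) = f' (a, p * g v)) →
      ∀ a, r v f (a, p) = r v f' (a, p))
    (R : P' → (A × P → K) →ₗ[K] (A × P → K)) (hR : ∀ p, Function.Injective (R p))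
    (hr : ∀ p v f, r v (R (p * g' v) f) = R p f) :
    Fintype.card (A × P) * dQ K Q n g' ≤
      Fintype.card P' * Module.finrank K (ZQ K Q n r) := by
  classical
  -- (1)
  have h1 : Fintype.card (A × P) * dQ K Q n g' ≤ Module.finrank K (ZQ K Q n (lrh g' r)) := by
    let Φ : (A × P → ZQ K Q n (rG K g')) →ₗ[K] (Finset V → X → P' → A × P → K) :=
      { toFun := fun z σ x p => R p (fun j => (z j).1 σ x p)
        map_add' := fun z w => by
          funext σ x p
          rw [show (fun j => ((z + w) j).1 σ x p) = (fun j => (z j).1 σ x p) + fun j => (w j).1 σ x p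
            from rfl, map_add]
          rfl
        map_smul' := fun c z => by
          funext σ x p
          rw [show (fun j => ((c • z) j).1 σ x p) = c • (fun j => (z j).1 σ x p) from rfl, map_smul]
          rfl }
    have hΦ : ∀ z, Φ z ∈ ZQ K Q n (lrh g' r) := by
      intro z
      refine ⟨fun σ x hσ => ?_, fun σ x hs v hv => ?_, fun κ x => ?_⟩
      · by_contra hcon
        refine hσ ?_
        have h0 : ∀ j, (z j).1 σ x = 0 := by
          intro j
          by_contra h
          exact hcon ((z j).2.1 σ x h)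
        funext p
        change R p (fun j => (z j).1 σ x p) = 0
        rw [show (fun j => (z j).1 σ x p) = 0 from funext fun j => by rw [h0 j]; rfl, map_zero]
      · funext p
        change R p (fun j => (z j).1 σ (Q.nb v x) p) = r v (R (p * g' v) (fun j => (z j).1 σ x (p * g' v)))
        rw [hr]
        congr 1
        funext j
        exact congrFun ((z j).2.2.1 σ x hs v hv) p
      · funext p
        rw [Finset.sum_apply]
        change ∑ v ∈ κᶜ, R p (fun j => (z j).1 (insert v κ) x p) = 0
        rw [← map_sum]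
        have : (∑ v ∈ κᶜ, fun j => (z j).1 (insert v κ) x p) = (0 : A × P → K) := by
          funext j
          rw [Finset.sum_apply]
          have := congrFun ((z j).2.2.2 κ x) p
          rw [Finset.sum_apply] at this
          exact this
        rw [this, map_zero]
    have hinj : Function.Injective (Φ.codRestrict (ZQ K Q n (lrh g' r)) hΦ) := by
      intro z w hzw
      have h2 : Φ z = Φ w := congrArg Subtype.val hzw
      funext j
      refine Subtype.ext ?_
      funext σ x p
      have h3 : R p (fun j => (z j).1 σ x p) = R p (fun j => (w j).1 σ x p) :=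
        congrFun (congrFun (congrFun h2 σ) x) p
      exact congrFun (hR p h3) j
    have h2 := LinearMap.finrank_le_finrank_of_injective hinj
    rw [Module.finrank_pi_fintype, Finset.sum_const, Finset.card_univ, smul_eq_mul] at h2
    exact h2
  -- (2)
  have h2' : Module.finrank K (ZQ K Q n (lrh g' r)) ≤ Module.finrank K (lS Q n g' r ⊥) := by
    have hm : ∀ z : ZQ K Q n (lrh g' r), (z : Finset V → X → P' → A × P → K) ∈ lS Q n g' r ⊥ := by
      rintro ⟨z, hz⟩
      refine ⟨hz, fun h hh σ x p => ?_⟩
      rw [Subgroup.mem_bot.1 hh, one_mul]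
    refine LinearMap.finrank_le_finrank_of_injective
      (f := (ZQ K Q n (lrh g' r)).subtype.codRestrict _ hm) ?_
    intro x y hxy
    have := congrArg Subtype.val hxy
    exact Subtype.ext this
  -- (3)
  have h3 : Module.finrank K (lS Q n g' r q.ker) ≤
      Fintype.card P * Module.finrank K (ZQ K Q n r) := by
    obtain ⟨sec, hsec⟩ : ∃ sec : P → P', ∀ y, q (sec y) = y :=
      ⟨fun y => (hsurj y).choose, fun y => (hsurj y).choose_spec⟩
    have hinv : ∀ φ ∈ lS Q n g' r q.ker, ∀ p₁ p₂, q p₁ = q p₂ → ∀ σ x, φ σ x p₁ = φ σ x p₂ := by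
      rintro φ ⟨-, hφ⟩ p₁ p₂ h12 σ x
      have hk : p₁ * p₂⁻¹ ∈ q.ker := by
        rw [MonoidHom.mem_ker, map_mul, map_inv, h12, mul_inv_cancel]
      have := hφ _ hk σ x p₂
      rwa [inv_mul_cancel_right] at this
    let E : (Finset V → X → P' → A × P → K) →ₗ[K] (P → Finset V → X → A × P → K) :=
      { toFun := fun φ y σ x j => φ σ x (sec (y * j.2)) j
        map_add' := fun _ _ => rfl
        map_smul' := fun _ _ => rfl }
    have hE : ∀ φ ∈ lS Q n g' r q.ker, ∀ y, E φ y ∈ ZQ K Q n r := by
      intro φ hφ y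
      have hi := hinv φ hφ
      obtain ⟨⟨h4, h5, h6⟩, -⟩ := hφ
      refine ⟨fun σ x hσ => h4 σ x fun h0 => hσ ?_, fun σ x hs v hv => ?_, fun κ x => ?_⟩
      · funext j
        change φ σ x (sec (y * j.2)) j = 0
        rw [h0]
        rfl
      · funext j
        obtain ⟨a, p⟩ := j
        have h7 := congrFun (h5 σ x hs v hv) (sec (y * p))
        change φ σ (Q.nb v x) (sec (y * p)) = r v (φ σ x (sec (y * p) * g' v)) at h7
        change φ σ (Q.nb v x) (sec (y * p)) (a, p) = r v (E φ y σ x) (a, p)
        rw [h7]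
        refine hloc v _ _ p (fun a' => ?_) a
        change φ σ x (sec (y * p) * g' v) (a', p * g v) = φ σ x (sec (y * (p * g v))) (a', p * g v)
        rw [hi (sec (y * (p * g v))) (sec (y * p) * g' v)]
        rw [hsec, map_mul, hsec, hq, mul_assoc]
      · funext j
        have h7 := congrFun (congrFun (h6 κ x) (sec (y * j.2))) j
        rw [Finset.sum_apply, Finset.sum_apply] at h7
        rw [Finset.sum_apply]
        exact h7
    let F : lS Q n g' r q.ker →ₗ[K] (P → ZQ K Q n r) :=
      { toFun := fun φ y => ⟨E φ.1 y, hE φ.1 φ.2 y⟩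
        map_add' := fun _ _ => rfl
        map_smul' := fun _ _ => rfl }
    have hF : Function.Injective F := by
      intro φ ψ h
      refine Subtype.ext ?_
      funext σ x p' j
      have h8 : E φ.1 (q p' * j.2⁻¹) σ x j = E ψ.1 (q p' * j.2⁻¹) σ x j :=
        congrFun (congrFun (congrFun (congrArg Subtype.val (congrFun h (q p' * j.2⁻¹))) σ) x) j
      change φ.1 σ x (sec (q p' * j.2⁻¹ * j.2)) j = ψ.1 σ x (sec (q p' * j.2⁻¹ * j.2)) j at h8
      rw [inv_mul_cancel_right] at h8
      rw [hinv φ.1 φ.2 p' (sec (q p')) (hsec _).symm, hinv ψ.1 ψ.2 p' (sec (q p')) (hsec _).symm]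
      exact h8
    have h9 := LinearMap.finrank_le_finrank_of_injective hF
    rw [Module.finrank_pi_fintype, Finset.sum_const, Finset.card_univ, smul_eq_mul] at h9
    exact h9
  -- the chain
  obtain ⟨N, hN⟩ := (IsPGroup.iff_card (p := 2)).1 h2
  have hcm : ∀ H : Subgroup q.ker, Nat.card (H.map q.ker.subtype) = Nat.card H := fun H =>
    Nat.card_congr (H.equivMapOfInjective _ q.ker.subtype_injective).toEquiv.symm
  have h4 : ∀ m ≤ N, ∃ H : Subgroup q.ker, Nat.card H = 2 ^ m ∧
      Module.finrank K (lS Q n g' r ⊥) ≤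
        2 ^ m * Module.finrank K (lS Q n g' r (H.map q.ker.subtype)) := by
    intro m
    induction m with
    | zero => exact fun _ => ⟨⊥, by simp, by rw [Subgroup.map_bot, pow_zero, one_mul]⟩
    | succ m ih =>
      intro hm
      obtain ⟨H, hH1, hH2⟩ := ih (by omega)
      have : Fact (Nat.Prime 2) := ⟨Nat.prime_two⟩
      obtain ⟨H', hH3, hH4⟩ := Sylow.exists_subgroup_card_pow_succ (p := 2) (n := m) (G := q.ker)
        (by rw [hN]; exact pow_dvd_pow 2 hm) hH1
      refine ⟨H', hH3, hH2.trans ?_⟩
      have h5 := step (K := K) Q n g' r (Subgroup.map_mono (f := q.ker.subtype) hH4)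
        (by rw [hcm, hcm, hH3, hH1, pow_succ]; ring)
      calc 2 ^ m * Module.finrank K (lS Q n g' r (H.map q.ker.subtype))
          ≤ 2 ^ m * (2 * Module.finrank K (lS Q n g' r (H'.map q.ker.subtype))) :=
            Nat.mul_le_mul_left _ h5
        _ = 2 ^ (m + 1) * Module.finrank K (lS Q n g' r (H'.map q.ker.subtype)) := by
            rw [pow_succ]; ring
  obtain ⟨H, hH1, hH2⟩ := h4 N le_rfl
  have hHt : H = ⊤ := by
    refine Subgroup.eq_top_of_card_eq H ?_
    rw [hH1, hN]
  have hmt : H.map q.ker.subtype = q.ker := by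
    rw [hHt, ← MonoidHom.range_eq_map, Subgroup.range_subtype]
  rw [hmt] at hH2
  have hcard : Fintype.card P' = 2 ^ N * Fintype.card P := by
    have h6 := q.ker.card_mul_index
    rw [Subgroup.index_ker, MonoidHom.range_eq_top.2 hsurj, hN, Subgroup.card_top,
      Nat.card_eq_fintype_card, Nat.card_eq_fintype_card] at h6
    exact h6.symm
  rw [hcard, mul_assoc]
  exact h1.trans (h2'.trans (hH2.trans (Nat.mul_le_mul_left _ h3)))

/-- **Coverings.** As `Pool.Agent.H77.SX.mono`. -/
theorem mono (Q : CubeComplex V X) (n : ℕ) {P' P : Type} [Group P'] [Fintype P'] [Group P]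
    [Fintype P] (g' : V → P') (g : V → P) (q : P' →* P) (hq : ∀ v, q (g' v) = g v)
    (hsq : ∀ v, g v * g v = 1) (hsurj : Function.Surjective q) (h2 : IsPGroup 2 q.ker) :
    Fintype.card P * dQ K Q n g' ≤ Fintype.card P' * dQ K Q n g := by
  classical
  have _ := hsq
  let r : V → (Unit × P → K) →ₗ[K] (Unit × P → K) := fun v =>
    { toFun := fun f j => f (j.1, j.2 * g v)
      map_add' := fun _ _ => rfl
      map_smul' := fun _ _ => rfl }
  let R : P' → (Unit × P → K) →ₗ[K] (Unit × P → K) := fun p' =>
    { toFun := fun f j => f (j.1, j.2 * (q p')⁻¹)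
      map_add' := fun _ _ => rfl
      map_smul' := fun _ _ => rfl }
  have h1 := lower (K := K) Q n g' g q hq hsurj h2 r
    (fun v f f' p h a => h a) R
    (fun p' f f' h => by
      funext j
      have h3 := congrFun h (j.1, j.2 * q p')
      change f (j.1, j.2 * q p' * (q p')⁻¹) = f' (j.1, j.2 * q p' * (q p')⁻¹) at h3
      rwa [mul_inv_cancel_right] at h3)
    (fun p' v f => by
      funext j
      change f (j.1, j.2 * g v * (q (p' * g' v))⁻¹) = f (j.1, j.2 * (q p')⁻¹)
      rw [map_mul, hq, mul_inv_rev, mul_assoc, mul_inv_cancel_left])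
  rw [Fintype.card_prod, Fintype.card_unit, one_mul] at h1
  refine h1.trans (Nat.mul_le_mul_left _ ?_)
  let E : (Finset V → X → Unit × P → K) →ₗ[K] (Finset V → X → P → K) :=
    { toFun := fun z σ x p => z σ x ((), p)
      map_add' := fun _ _ => rfl
      map_smul' := fun _ _ => rfl }
  have hE : ∀ z : ZQ K Q n r, (E.comp (ZQ K Q n r).subtype) z ∈ ZQ K Q n (rG K g) := by
    rintro ⟨z, h4, h5, h6⟩
    refine ⟨fun σ x hσ => h4 σ x fun h0 => hσ ?_, fun σ x hs v hv => ?_, fun κ x => ?_⟩
    · funext p
      change z σ x ((), p) = 0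
      rw [h0]
      rfl
    · funext p
      exact congrFun (h5 σ x hs v hv) ((), p)
    · funext p
      have h7 := congrFun (h6 κ x) ((), p)
      rw [Finset.sum_apply] at h7 ⊢
      exact h7
  refine LinearMap.finrank_le_finrank_of_injective
    (f := (E.comp (ZQ K Q n r).subtype).codRestrict _ hE) ?_
  intro x y hxy
  refine Subtype.ext ?_
  funext σ x' j
  exact congrFun (congrFun (congrFun (congrArg Subtype.val hxy) σ) x') j.2

end Pool.Agent.H77.TC
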